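import Pool.Agent.H217R3.AK.Bsg

set_option autoImplicit false

/-! # Additive energy: Cauchy-Schwarz, a piece of small doubling, sums covering the group -/

open Finset
open scoped Pointwise

namespace Run7.h322.LE

variable {G : Type*} [AddCommGroup G] [DecidableEq G] [Fintype G]

/-- the number of representations of `d` as a difference of two elements of `A` -/
def rep (A : Finset G) (d : G) : ℕ := ((A ×ˢ A).filter (fun p => p.1 - p.2 = d)).card

theorem energy_eq (A B : Finset G) : A.addEnergy B = ∑ d : G, rep A d * rep B d := by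
  unfold Finset.addEnergy
  rw [Finset.card_eq_sum_card_fiberwise (f := fun x : (G × G) × G × G => x.1.1 - x.1.2) (t := univ)
    (fun _ _ => by simp)]
  refine Finset.sum_congr rfl fun d _ => ?_
  unfold rep
  rw [← Finset.card_product]
  refine Finset.card_nbij' (fun x => (x.1, (x.2.2, x.2.1))) (fun y => (y.1, (y.2.2, y.2.1))) ?_ ?_ ?_ ?_
  · rintro ⟨⟨a, a'⟩, b, b'⟩ h
    simp only [mem_coe, mem_filter, mem_product] at h ⊢
    obtain ⟨⟨⟨⟨h1, h2⟩, h3, h4⟩, h5⟩, h6⟩ := h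
    refine ⟨⟨⟨h1, h2⟩, h6⟩, ⟨h4, h3⟩, ?_⟩
    rw [← h6, sub_eq_sub_iff_add_eq_add, add_comm b' a', ← h5]
  · rintro ⟨⟨a, a'⟩, b, b'⟩ h
    simp only [mem_coe, mem_filter, mem_product] at h ⊢
    obtain ⟨⟨⟨h1, h2⟩, h3⟩, ⟨h4, h5⟩, h6⟩ := h
    refine ⟨⟨⟨⟨h1, h2⟩, h5, h4⟩, ?_⟩, h3⟩
    rw [← h3, sub_eq_sub_iff_add_eq_add] at h6
    rw [← h6, add_comm]
  · intro x _; rfl
  · intro x _; rfl

theorem energy_sq_le (A B : Finset G) : (A.addEnergy B) ^ 2 ≤ A.addEnergy A * B.addEnergy B := by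
  rw [energy_eq A B, energy_eq A A, energy_eq B B]
  have h := Finset.sum_mul_sq_le_sq_mul_sq (R := ℕ) univ (rep A) (rep B)
  simpa only [sq] using h

theorem rep_le (B : Finset G) (d : G) : rep B d ≤ B.card := by
  unfold rep
  apply Finset.card_le_card_of_injOn (fun p : G × G => p.1)
  · intro p hp
    rw [mem_coe, mem_filter, mem_product] at hp
    exact hp.1.1
  · intro p hp q hq h
    rw [mem_coe, mem_filter, mem_product] at hp hq
    have h' : p.1 = q.1 := h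
    refine Prod.ext h' ?_
    have := hp.2.trans hq.2.symm
    rw [h'] at this
    exact sub_right_injective this

theorem sum_rep (B : Finset G) : ∑ d : G, rep B d = B.card ^ 2 := by
  have h1 := Finset.card_eq_sum_card_fiberwise (f := fun p : G × G => p.1 - p.2)
    (s := B ×ˢ B) (t := univ) (fun p hp => by simp)
  rw [Finset.card_product] at h1
  rw [sq]
  exact h1.symm

theorem energy_self_le (B : Finset G) : B.addEnergy B ≤ B.card ^ 3 := by
  rw [energy_eq]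
  calc ∑ d, rep B d * rep B d ≤ ∑ d, B.card * rep B d :=
        sum_le_sum fun d _ => Nat.mul_le_mul_right _ (rep_le B d)
    _ = B.card * B.card ^ 2 := by rw [← mul_sum, sum_rep]
    _ = B.card ^ 3 := by ring

theorem energy_self_of (A B : Finset G) (hB : B.Nonempty) (K : ℝ)
    (h : ((A.card : ℝ) * B.card) ^ 3 ≤ K ^ 2 * (A.addEnergy B : ℝ) ^ 2) :
    (A.card : ℝ) ^ 3 ≤ K ^ 2 * (A.addEnergy A : ℝ) := by
  have hb : (0 : ℝ) < B.card := by exact_mod_cast hB.card_pos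
  have h1 : ((A.addEnergy B : ℕ) : ℝ) ^ 2 ≤ (A.addEnergy A : ℝ) * (B.addEnergy B : ℝ) := by
    exact_mod_cast energy_sq_le A B
  have h2 : ((B.addEnergy B : ℕ) : ℝ) ≤ (B.card : ℝ) ^ 3 := by exact_mod_cast energy_self_le B
  have h3 : (A.card : ℝ) ^ 3 * (B.card : ℝ) ^ 3 ≤ (K ^ 2 * (A.addEnergy A : ℝ)) * (B.card : ℝ) ^ 3 := by
    calc (A.card : ℝ) ^ 3 * (B.card : ℝ) ^ 3 = ((A.card : ℝ) * B.card) ^ 3 := by ring
      _ ≤ K ^ 2 * (A.addEnergy B : ℝ) ^ 2 := h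
      _ ≤ K ^ 2 * ((A.addEnergy A : ℝ) * (B.addEnergy B : ℝ)) :=
          mul_le_mul_of_nonneg_left h1 (sq_nonneg _)
      _ ≤ K ^ 2 * ((A.addEnergy A : ℝ) * (B.card : ℝ) ^ 3) :=
          mul_le_mul_of_nonneg_left (mul_le_mul_of_nonneg_left h2 (Nat.cast_nonneg _)) (sq_nonneg _)
      _ = _ := by ring
  exact le_of_mul_le_mul_right h3 (by positivity)

/-- many sums in a small set give large energy -/
theorem energy_of_sums (A B S : Finset G) (hA : A.Nonempty) (hB : B.Nonempty) (K : ℝ) (hK : 1 ≤ K)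
    (h1 : (A.card : ℝ) * B.card ≤ K * (((A ×ˢ B).filter (fun p => p.1 + p.2 ∈ S)).card : ℝ))
    (h2 : (S.card : ℝ) ^ 2 ≤ K ^ 2 * ((A.card : ℝ) * B.card)) :
    ((A.card : ℝ) * B.card) ^ 3 ≤ (K ^ 3) ^ 2 * (A.addEnergy B : ℝ) ^ 2 := by
  have ha : (0 : ℝ) < A.card := by exact_mod_cast hA.card_pos
  have hb : (0 : ℝ) < B.card := by exact_mod_cast hB.card_pos
  have h0 : 0 < (A.card : ℝ) * B.card := by positivity
  set P : ℝ := (((A ×ˢ B).filter (fun p => p.1 + p.2 ∈ S)).card : ℝ) with hP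
  have h3 : P ^ 2 ≤ (S.card : ℝ) * (A.addEnergy B : ℝ) := by
    rw [hP]; exact_mod_cast Finset.card_sq_le_card_mul_addEnergy A B S
  have hP0 : 0 ≤ P := by rw [hP]; positivity
  have h4 : (P ^ 2) ^ 2 ≤ ((S.card : ℝ) * (A.addEnergy B : ℝ)) ^ 2 := pow_le_pow_left₀ (by positivity) h3 2
  have h5 : ((A.card : ℝ) * B.card) ^ 4 ≤ (K * P) ^ 4 := pow_le_pow_left₀ h0.le h1 4
  have h6 : ((A.card : ℝ) * B.card) ^ 4 ≤
      ((K ^ 3) ^ 2 * (A.addEnergy B : ℝ) ^ 2) * ((A.card : ℝ) * B.card) := by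
    calc ((A.card : ℝ) * B.card) ^ 4 ≤ (K * P) ^ 4 := h5
      _ = K ^ 4 * (P ^ 2) ^ 2 := by ring
      _ ≤ K ^ 4 * ((S.card : ℝ) * (A.addEnergy B : ℝ)) ^ 2 := mul_le_mul_of_nonneg_left h4 (by positivity)
      _ = K ^ 4 * (A.addEnergy B : ℝ) ^ 2 * (S.card : ℝ) ^ 2 := by ring
      _ ≤ K ^ 4 * (A.addEnergy B : ℝ) ^ 2 * (K ^ 2 * ((A.card : ℝ) * B.card)) :=
          mul_le_mul_of_nonneg_left h2 (by positivity)
      _ = _ := by ring
  have h7 : ((A.card : ℝ) * B.card) ^ 3 * ((A.card : ℝ) * B.card) ≤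
      ((K ^ 3) ^ 2 * (A.addEnergy B : ℝ) ^ 2) * ((A.card : ℝ) * B.card) := by
    calc _ = ((A.card : ℝ) * B.card) ^ 4 := by ring
      _ ≤ _ := h6
  exact le_of_mul_le_mul_right h7 h0

/-- the piece of small doubling -/
theorem piece (A : Finset G) (hA : A.Nonempty) (K : ℝ) (hK : 1 ≤ K)
    (hE : (A.card : ℝ) ^ 3 ≤ K ^ 2 * (A.addEnergy A : ℝ)) :
    ∃ B ⊆ A, B.Nonempty ∧ (A.card : ℝ) ≤ 8 * K ^ 2 * B.card ∧
      ((B + B).card : ℝ) ≤ (2 ^ 22 * K ^ 20) ^ 2 * B.card := by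
  obtain ⟨B, hBA, hB, h1, h2⟩ := Pool.Agent.H217R3.AK.bsg A hA (K ^ 2) (by positivity) hE
  refine ⟨B, hBA, hB, h1, ?_⟩
  have hb : (0 : ℝ) < B.card := by exact_mod_cast hB.card_pos
  have h3 : ((B + B).card : ℝ) * B.card ≤ ((B - B).card : ℝ) * ((B - B).card : ℝ) := by
    exact_mod_cast Finset.ruzsa_triangle_inequality_add_sub_sub B B B
  have h4 : ((B - B).card : ℝ) ≤ 2 ^ 22 * K ^ 20 * B.card := by
    calc ((B - B).card : ℝ) ≤ 2 ^ 22 * (K ^ 2) ^ 10 * B.card := h2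
      _ = _ := by ring
  have h5 : ((B + B).card : ℝ) * B.card ≤ ((2 ^ 22 * K ^ 20) ^ 2 * B.card) * B.card := by
    calc ((B + B).card : ℝ) * B.card ≤ ((B - B).card : ℝ) * ((B - B).card : ℝ) := h3
      _ ≤ (2 ^ 22 * K ^ 20 * B.card) * (2 ^ 22 * K ^ 20 * B.card) :=
          mul_le_mul h4 h4 (by positivity) (by positivity)
      _ = _ := by ring
  exact le_of_mul_le_mul_right h5 hb

/-- two sets of sums of more than half of the group -/
theorem exists_sub (S : Finset G) (h : Fintype.card G < 2 * S.card) (y : G) : ∃ s ∈ S, ∃ t ∈ S, y = s - t := by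
  classical
  by_contra hc
  push Not at hc
  have h1 : Disjoint S (S.image (fun t => y + t)) := by
    rw [Finset.disjoint_left]
    intro s hs hs'
    rw [Finset.mem_image] at hs'
    obtain ⟨t, ht, hts⟩ := hs'
    exact hc s hs t ht (by rw [← hts]; abel)
  have h2 : (S.image (fun t => y + t)).card = S.card :=
    Finset.card_image_of_injective _ (add_right_injective y)
  have h3 : (S ∪ S.image (fun t => y + t)).card ≤ Fintype.card G := Finset.card_le_univ _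
  rw [Finset.card_union_of_disjoint h1, h2] at h3
  omega

theorem small_energy (A : Finset G) (h : (Fintype.card G : ℝ) * (A.addEnergy A : ℝ) < 2 * (A.card : ℝ) ^ 4) (y : G) :
    ∃ a ∈ A, ∃ b ∈ A, ∃ c ∈ A, ∃ d ∈ A, y = a + b - c - d := by
  have h1 : (A.card : ℝ) ^ 2 * (A.card : ℝ) ^ 2 ≤ ((A + A).card : ℝ) * (A.addEnergy A : ℝ) := by
    exact_mod_cast Finset.le_card_add_mul_addEnergy A A
  have hE : (0 : ℝ) < (A.addEnergy A : ℝ) := by
    by_contra hE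
    have hE0 : (A.addEnergy A : ℝ) = 0 := le_antisymm (not_lt.1 hE) (Nat.cast_nonneg _)
    rw [hE0] at h h1
    have : (A.card : ℝ) ^ 4 = (A.card : ℝ) ^ 2 * (A.card : ℝ) ^ 2 := by ring
    nlinarith
  have h2 : (Fintype.card G : ℝ) < 2 * ((A + A).card : ℝ) := by
    have h3 : (Fintype.card G : ℝ) * (A.addEnergy A : ℝ) < (2 * ((A + A).card : ℝ)) * (A.addEnergy A : ℝ) := by
      calc _ < 2 * (A.card : ℝ) ^ 4 := h
        _ = 2 * ((A.card : ℝ) ^ 2 * (A.card : ℝ) ^ 2) := by ring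
        _ ≤ 2 * (((A + A).card : ℝ) * (A.addEnergy A : ℝ)) := mul_le_mul_of_nonneg_left h1 (by norm_num)
        _ = _ := by ring
    exact lt_of_mul_lt_mul_right h3 hE.le
  obtain ⟨s, hs, t, ht, hy⟩ := exists_sub (A + A) (by exact_mod_cast h2) y
  obtain ⟨a, ha, b, hb, rfl⟩ := Finset.mem_add.1 hs
  obtain ⟨c, hc, d, hd, rfl⟩ := Finset.mem_add.1 ht
  exact ⟨a, ha, b, hb, c, hc, d, hd, by rw [hy]; abel⟩

end Run7.h322.LE
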