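import Pool.Agent.Run7.h322.LE.PopStm
import Pool.Agent.Run7.h322.LE.Energy

set_option autoImplicit false
set_option linter.unusedSectionVars false

/-! # Transfer of popular elements of `2P - 2P` to sets `A` whose sums are distributed like those of `P` -/

open Finset
open scoped Pointwise

namespace Run7.h322.LE

variable {N : ℕ} [NeZero N]

theorem RR_sum (A : Finset (ZMod N)) (y : ZMod N) : RR A y = ∑ z : ZMod N, rs A z * rs A (z + y) := by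
  rw [RR_eq]
  rw [← Finset.sum_fiberwise (s := A ×ˢ A) (g := fun p => p.1 + p.2)]
  refine Finset.sum_congr rfl fun z _ => ?_
  have h1 : ∀ p ∈ (A ×ˢ A).filter (fun p => p.1 + p.2 = z), rs A (p.1 + y + p.2) = rs A (z + y) := by
    intro p hp
    rw [mem_filter] at hp
    rw [← hp.2]
    congr 1
    ring
  rw [Finset.sum_congr rfl h1, sum_const, smul_eq_mul]
  rfl

theorem sum_rs_sq (P : Finset (ZMod N)) : ∑ z : ZMod N, rs P z ^ 2 ≤ P.card ^ 3 := by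
  have h := Finset.addEnergy_eq_sum_sq P P
  have h2 := energy_self_le P
  rw [h] at h2
  exact h2

/-- two functions close in `L²` -/
theorem close (f g : ZMod N → ℝ) (y : ZMod N) (p M : ℝ) (hp : 0 < p) (hM : 1 ≤ M) (hg : ∑ z, g z ^ 2 ≤ 1 / p)
    (hh : ∑ z, (g z - f z) ^ 2 ≤ 1 / (16 * M ^ 2 * p)) (hgg : 1 / (M * p) ≤ ∑ z, g z * g (z + y)) :
    0 < ∑ z, f z * f (z + y) := by
  have hM0 : 0 < M := by linarith
  have s1 : ∑ z, g (z + y) ^ 2 = ∑ z, g z ^ 2 :=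
    Fintype.sum_equiv (Equiv.addRight y) _ _ fun z => rfl
  have s2 : ∑ z, (g (z + y) - f (z + y)) ^ 2 = ∑ z, (g z - f z) ^ 2 :=
    Fintype.sum_equiv (Equiv.addRight y) _ _ fun z => rfl
  have hpt : ∀ z, g z * g (z + y) - (1 / (8 * M)) * g z ^ 2 - (1 / (8 * M)) * g (z + y) ^ 2
      - (2 * M + 1 / 2) * (g z - f z) ^ 2 - (2 * M + 1 / 2) * (g (z + y) - f (z + y)) ^ 2 ≤ f z * f (z + y) := by
    intro z
    obtain ⟨a, ha⟩ : ∃ a, a = g z := ⟨_, rfl⟩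
    obtain ⟨b, hb⟩ : ∃ b, b = g (z + y) := ⟨_, rfl⟩
    obtain ⟨u, hu⟩ : ∃ u, u = g z - f z := ⟨_, rfl⟩
    obtain ⟨v, hv⟩ : ∃ v, v = g (z + y) - f (z + y) := ⟨_, rfl⟩
    have e1 : f z = a - u := by rw [ha, hu]; ring
    have e2 : f (z + y) = b - v := by rw [hb, hv]; ring
    rw [← hu, ← hv, e1, e2, ← ha, ← hb]
    have q1 : a * v ≤ (1 / (8 * M)) * a ^ 2 + 2 * M * v ^ 2 := by
      have h1 : 0 ≤ (1 / (8 * M)) * (a - 4 * M * v) ^ 2 := by positivity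
      have h2 : (1 / (8 * M)) * (a - 4 * M * v) ^ 2 = (1 / (8 * M)) * a ^ 2 - a * v + 2 * M * v ^ 2 := by
        field_simp
        ring
      linarith
    have q2 : u * b ≤ (1 / (8 * M)) * b ^ 2 + 2 * M * u ^ 2 := by
      have h1 : 0 ≤ (1 / (8 * M)) * (b - 4 * M * u) ^ 2 := by positivity
      have h2 : (1 / (8 * M)) * (b - 4 * M * u) ^ 2 = (1 / (8 * M)) * b ^ 2 - u * b + 2 * M * u ^ 2 := by
        field_simp
        ring
      linarith
    have q3 : -(u * v) ≤ 1 / 2 * u ^ 2 + 1 / 2 * v ^ 2 := by nlinarith [sq_nonneg (u + v)]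
    have e3 : (a - u) * (b - v) = a * b - a * v - u * b + u * v := by ring
    rw [e3]
    linarith
  have hsum := Finset.sum_le_sum (s := (univ : Finset (ZMod N))) fun z _ => hpt z
  simp only [Finset.sum_sub_distrib, ← Finset.mul_sum] at hsum
  rw [s1] at hsum
  have s2' : ∑ z, (g (z + y) - f (z + y)) ^ 2 = ∑ z, (g z - f z) ^ 2 := s2
  rw [s2'] at hsum
  have hG : (1 / (8 * M)) * ∑ z, g z ^ 2 ≤ (1 / (8 * M)) * (1 / p) :=
    mul_le_mul_of_nonneg_left hg (by positivity)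
  have hH : (2 * M + 1 / 2) * ∑ z, (g z - f z) ^ 2 ≤ (2 * M + 1 / 2) * (1 / (16 * M ^ 2 * p)) :=
    mul_le_mul_of_nonneg_left hh (by positivity)
  have hfin : 0 < 1 / (M * p) - 2 * ((1 / (8 * M)) * (1 / p)) - 2 * ((2 * M + 1 / 2) * (1 / (16 * M ^ 2 * p))) := by
    have e : 1 / (M * p) - 2 * ((1 / (8 * M)) * (1 / p)) - 2 * ((2 * M + 1 / 2) * (1 / (16 * M ^ 2 * p))) =
        (8 * M - 1) / (16 * M ^ 2 * p) := by
      field_simp
      ring
    rw [e]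
    exact div_pos (by linarith) (by positivity)
  linarith

/-- the transfer -/
theorem transfer (A P : Finset (ZMod N)) (hA : A.Nonempty) (hP : P.Nonempty) (y : ZMod N) (M : ℝ) (hM : 1 ≤ M)
    (h1 : (P.card : ℝ) ^ 3 ≤ M * (RR P y : ℝ))
    (h2 : 16 * M ^ 2 * ∑ z : ZMod N, ((P.card : ℝ) ^ 2 * (rs A z : ℝ) - (A.card : ℝ) ^ 2 * (rs P z : ℝ)) ^ 2 ≤
      (A.card : ℝ) ^ 4 * (P.card : ℝ) ^ 3) : 0 < RR A y := by
  have ha : (0 : ℝ) < A.card := by exact_mod_cast hA.card_pos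
  have hp : (0 : ℝ) < P.card := by exact_mod_cast hP.card_pos
  have hM0 : 0 < M := by linarith
  have key := close (fun z => (rs A z : ℝ) / (A.card : ℝ) ^ 2) (fun z => (rs P z : ℝ) / (P.card : ℝ) ^ 2) y
    (P.card : ℝ) M hp hM ?_ ?_ ?_
  · have e : ∑ z : ZMod N, (rs A z : ℝ) / (A.card : ℝ) ^ 2 * ((rs A (z + y) : ℝ) / (A.card : ℝ) ^ 2) =
        (RR A y : ℝ) / (A.card : ℝ) ^ 4 := by
      rw [RR_sum]
      push_cast
      rw [Finset.sum_div]
      refine Finset.sum_congr rfl fun z _ => ?_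
      field_simp
    have key' : 0 < (RR A y : ℝ) / (A.card : ℝ) ^ 4 := by rw [← e]; exact key
    have h3 : (0 : ℝ) < (RR A y : ℝ) := by
      by_contra hcon
      have h4 : (RR A y : ℝ) / (A.card : ℝ) ^ 4 ≤ 0 := div_nonpos_of_nonpos_of_nonneg (not_lt.1 hcon) (by positivity)
      linarith
    exact_mod_cast h3
  · have h3 : (∑ z : ZMod N, (rs P z : ℝ) ^ 2) ≤ (P.card : ℝ) ^ 3 := by exact_mod_cast sum_rs_sq P
    have e : ∑ z : ZMod N, ((rs P z : ℝ) / (P.card : ℝ) ^ 2) ^ 2 = (∑ z : ZMod N, (rs P z : ℝ) ^ 2) / (P.card : ℝ) ^ 4 := by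
      rw [Finset.sum_div]
      refine Finset.sum_congr rfl fun z _ => ?_
      rw [div_pow]
      ring
    rw [e, div_le_div_iff₀ (by positivity) hp]
    calc (∑ z : ZMod N, (rs P z : ℝ) ^ 2) * P.card ≤ (P.card : ℝ) ^ 3 * P.card :=
          mul_le_mul_of_nonneg_right h3 hp.le
      _ = _ := by ring
  · have e : ∑ z : ZMod N, ((rs P z : ℝ) / (P.card : ℝ) ^ 2 - (rs A z : ℝ) / (A.card : ℝ) ^ 2) ^ 2 =
        (∑ z : ZMod N, ((P.card : ℝ) ^ 2 * (rs A z : ℝ) - (A.card : ℝ) ^ 2 * (rs P z : ℝ)) ^ 2) /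
          ((A.card : ℝ) ^ 4 * (P.card : ℝ) ^ 4) := by
      rw [Finset.sum_div]
      refine Finset.sum_congr rfl fun z _ => ?_
      field_simp
      ring
    rw [e, div_le_div_iff₀ (by positivity) (by positivity)]
    calc _ = (16 * M ^ 2 * ∑ z : ZMod N, ((P.card : ℝ) ^ 2 * (rs A z : ℝ) - (A.card : ℝ) ^ 2 * (rs P z : ℝ)) ^ 2) *
          P.card := by ring
      _ ≤ ((A.card : ℝ) ^ 4 * (P.card : ℝ) ^ 3) * P.card := mul_le_mul_of_nonneg_right h2 hp.le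
      _ = _ := by ring
  · have e : ∑ z : ZMod N, (rs P z : ℝ) / (P.card : ℝ) ^ 2 * ((rs P (z + y) : ℝ) / (P.card : ℝ) ^ 2) =
        (RR P y : ℝ) / (P.card : ℝ) ^ 4 := by
      rw [RR_sum]
      push_cast
      rw [Finset.sum_div]
      refine Finset.sum_congr rfl fun z _ => ?_
      field_simp
    have e' : ∑ z : ZMod N, (fun z => (rs P z : ℝ) / (P.card : ℝ) ^ 2) z * (fun z => (rs P z : ℝ) / (P.card : ℝ) ^ 2) (z + y) =
        (RR P y : ℝ) / (P.card : ℝ) ^ 4 := e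
    rw [e', div_le_div_iff₀ (by positivity) (by positivity)]
    calc 1 * (P.card : ℝ) ^ 4 = (P.card : ℝ) ^ 3 * P.card := by ring
      _ ≤ (M * (RR P y : ℝ)) * P.card := mul_le_mul_of_nonneg_right h1 hp.le
      _ = _ := by ring

theorem exists_of_RR (A : Finset (ZMod N)) (y : ZMod N) (h : 0 < RR A y) :
    ∃ a₁ ∈ A, ∃ a₂ ∈ A, ∃ a₃ ∈ A, ∃ a₄ ∈ A, y = a₁ + a₂ - a₃ - a₄ := by
  unfold RR at h
  rw [card_pos] at h
  obtain ⟨⟨⟨a, b⟩, c, d⟩, hq⟩ := h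
  simp only [mem_filter, mem_product] at hq
  exact ⟨a, hq.1.1.1, b, hq.1.1.2, c, hq.1.2.1, d, hq.1.2.2, hq.2⟩

end Run7.h322.LE
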