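import Pool.Agent.Run7.h322.LE.Main

set_option autoImplicit false
set_option linter.unusedSectionVars false

/-! # A Bohr set of popular elements of `2A - 2A` is small -/

open Finset
open scoped Pointwise

namespace Run7.h322.LE

theorem sum_RR {N : ℕ} [NeZero N] (A : Finset (ZMod N)) : ∑ y : ZMod N, RR A y = A.card ^ 4 := by
  have h1 := Finset.card_eq_sum_card_fiberwise
    (f := fun q : (ZMod N × ZMod N) × (ZMod N × ZMod N) => q.1.1 + q.1.2 - q.2.1 - q.2.2)
    (s := (A ×ˢ A) ×ˢ (A ×ˢ A)) (t := univ) (fun p hp => by simp)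
  rw [card_product, card_product] at h1
  have h2 : ∑ y : ZMod N, RR A y = ∑ b : ZMod N, (((A ×ˢ A) ×ˢ (A ×ˢ A)).filter
      (fun q => q.1.1 + q.1.2 - q.2.1 - q.2.2 = b)).card := by
    refine Finset.sum_congr rfl fun y _ => ?_
    unfold RR
    congr 1
    refine Finset.filter_congr fun q _ => ?_
    exact eq_comm
  rw [h2, ← h1]
  ring

theorem lowerP {N : ℕ} [NeZero N] (A : Finset (ZMod N)) (hA : A.Nonempty) (M : ℝ) (hM : 0 < M)
    (Γ : Finset (ZMod N)) (ε : ℝ) (hε : 0 < ε) (hε1 : ε ≤ 1)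
    (h : ∀ y ∈ bohr Γ ε, (A.card : ℝ) ^ 3 ≤ M * (RR A y : ℝ)) :
    logDens A - Real.log M ≤ Γ.card * Real.log (2 / ε) := by
  classical
  have hAc : (0 : ℝ) < A.card := by exact_mod_cast hA.card_pos
  have hNpos : (0 : ℝ) < N := by exact_mod_cast NeZero.pos N
  obtain ⟨B, hB⟩ : ∃ B : Finset (ZMod N), B = univ.filter (fun y => (A.card : ℝ) ^ 3 ≤ M * (RR A y : ℝ)) := ⟨_, rfl⟩
  have h1 := Pool.Agent.N142.CD.bohr_large Γ ε hε hε1 B (fun x hx => by
    rw [hB, mem_filter]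
    exact ⟨mem_univ _, h x fun g hg => hx g hg⟩)
  have h2 : (B.card : ℝ) ≤ M * A.card := by
    have h3 : (B.card : ℝ) * (A.card : ℝ) ^ 3 ≤ M * (A.card : ℝ) ^ 4 := by
      calc (B.card : ℝ) * (A.card : ℝ) ^ 3 = ∑ _y ∈ B, (A.card : ℝ) ^ 3 := by rw [sum_const, nsmul_eq_mul]
        _ ≤ ∑ y ∈ B, M * (RR A y : ℝ) := sum_le_sum fun y hy => by
            rw [hB, mem_filter] at hy
            exact hy.2
        _ = M * ∑ y ∈ B, (RR A y : ℝ) := by rw [mul_sum]
        _ ≤ M * ∑ y : ZMod N, (RR A y : ℝ) := by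
            refine mul_le_mul_of_nonneg_left ?_ hM.le
            exact sum_le_sum_of_subset_of_nonneg (subset_univ _) fun _ _ _ => Nat.cast_nonneg _
        _ = M * (A.card : ℝ) ^ 4 := by
            congr 1
            exact_mod_cast sum_RR A
    have h4 : (B.card : ℝ) * (A.card : ℝ) ^ 3 ≤ (M * A.card) * (A.card : ℝ) ^ 3 := by
      calc _ ≤ M * (A.card : ℝ) ^ 4 := h3
        _ = _ := by ring
    exact le_of_mul_le_mul_right h4 (by positivity)
  have h3 : (N : ℝ) / A.card ≤ (2 / ε) ^ Γ.card * M := by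
    rw [div_le_iff₀ hAc]
    calc (N : ℝ) ≤ (2 / ε) ^ Γ.card * B.card := h1
      _ ≤ (2 / ε) ^ Γ.card * (M * A.card) := mul_le_mul_of_nonneg_left h2 (by positivity)
      _ = _ := by ring
  have h4 := Real.log_le_log (by positivity) h3
  rw [Real.log_mul (by positivity) hM.ne', Real.log_pow] at h4
  unfold logDens
  linarith

end Run7.h322.LE
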