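import Pool.Agent.N142.CD.FOU

set_option autoImplicit false
set_option linter.unusedSectionVars false

/-! # Popular sums: a version of the parts `AP` and `FOU` of project CD (helper142) that counts representations -/

namespace Run7.h322.LE

open Finset Pool.Agent.N142.CD
open scoped Pointwise

/-- the number of the pairs of `A × A` with sum `s` -/
def rs {N : ℕ} (A : Finset (ZMod N)) (s : ZMod N) : ℕ := ((A ×ˢ A).filter (fun p => p.1 + p.2 = s)).card

/-- the popular sums -/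
noncomputable def pop {N : ℕ} (A : Finset (ZMod N)) (K : ℝ) : Finset (ZMod N) :=
  (A + A).filter (fun s => (A.card : ℝ) ≤ 2 * K * (rs A s : ℝ))

/-- the number of the representations `y = a₁ + a₂ - a₃ - a₄` -/
def RR {N : ℕ} (A : Finset (ZMod N)) (y : ZMod N) : ℕ :=
  (((A ×ˢ A) ×ˢ (A ×ˢ A)).filter (fun q => y = q.1.1 + q.1.2 - q.2.1 - q.2.2)).card

/-- `y` has many representations -/
def QQ {N : ℕ} (A : Finset (ZMod N)) (K : ℝ) (y : ZMod N) : Prop := (A.card : ℝ) ^ 3 ≤ 8 * K * (RR A y : ℝ)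

def S_APP : Prop := ∃ C : ℝ, 0 < C ∧ ∀ (N : ℕ) [NeZero N] (A : Finset (ZMod N)) (K : ℝ) (l : ℕ),
  A.Nonempty → 1 ≤ K → ((A + A).card : ℝ) ≤ K * A.card → 1 ≤ l →
  ∃ T : Finset (ZMod N), T ⊆ A ∧
    (A.card : ℝ) ≤ Real.exp (C * l ^ 2 * Real.log (2 * K) ^ 2) * T.card ∧
    ∀ s ∈ T, ∀ s' ∈ T, ∀ y : ZMod N, |gn A (pop A K) (y + s - s') - gn A (pop A K) y| ≤ 1 / (16 * l)

def S_FOUP : Prop := ∀ (N : ℕ) [NeZero N] (A T : Finset (ZMod N)) (K : ℝ) (l : ℕ),
  A.Nonempty → T.Nonempty → 1 ≤ K → ((A + A).card : ℝ) ≤ K * A.card → 1 ≤ l → 16 * K ≤ 4 ^ l →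
  (∀ s ∈ T, ∀ s' ∈ T, ∀ y : ZMod N, |gn A (pop A K) (y + s - s') - gn A (pop A K) y| ≤ 1 / (16 * l)) →
  ∀ y : ZMod N, (∀ γ : ZMod N, (T.card : ℝ) / 2 ≤ ‖∑ t ∈ T, ψ (γ * t)‖ → ‖ψ (γ * y) - 1‖ ≤ 1 / (8 * K)) →
    QQ A K y

variable {N : ℕ} [NeZero N]

theorem pop_subset (A : Finset (ZMod N)) (K : ℝ) : pop A K ⊆ A + A := Finset.filter_subset _ _

theorem QQ_mono (A : Finset (ZMod N)) (K K' : ℝ) (h : K ≤ K') (y : ZMod N) (hQ : QQ A K y) : QQ A K' y := by
  unfold QQ at hQ ⊢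
  refine hQ.trans ?_
  have h0 : (0 : ℝ) ≤ (RR A y : ℝ) := Nat.cast_nonneg _
  have : 8 * K ≤ 8 * K' := by linarith
  exact mul_le_mul_of_nonneg_right this h0

theorem RR_eq (A : Finset (ZMod N)) (y : ZMod N) : RR A y = ∑ p ∈ A ×ˢ A, rs A (p.1 + y + p.2) := by
  unfold RR rs
  rw [Finset.card_filter, Finset.sum_product_right]
  refine Finset.sum_congr rfl fun p _ => ?_
  rw [Finset.card_filter]
  refine Finset.sum_congr rfl fun q _ => ?_
  refine if_congr ?_ rfl rfl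
  constructor
  · intro h
    rw [h]; ring
  · intro h
    rw [h]; ring

theorem gn_mul (A S : Finset (ZMod N)) (hA : A.Nonempty) (y : ZMod N) :
    gn A S y * (A.card : ℝ) ^ 2 = ∑ p ∈ A ×ˢ A, if p.1 + y + p.2 ∈ S then (1 : ℝ) else 0 := by
  have hA0 : (A.card : ℝ) ≠ 0 := by exact_mod_cast hA.card_pos.ne'
  unfold gn Fn
  rw [Finset.sum_product, ← Finset.sum_div]
  field_simp

theorem pop_rep (A : Finset (ZMod N)) (K : ℝ) (hA : A.Nonempty) (hK : 1 ≤ K) (y : ZMod N)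
    (h : 1 / 4 ≤ gn A (pop A K) y) : QQ A K y := by
  have hA0 : (0 : ℝ) < A.card := by exact_mod_cast hA.card_pos
  have h1 : gn A (pop A K) y * (A.card : ℝ) ^ 2 * A.card ≤ 2 * K * (RR A y : ℝ) := by
    rw [gn_mul A _ hA, RR_eq, Finset.sum_mul]
    push_cast
    rw [Finset.mul_sum]
    refine Finset.sum_le_sum fun p _ => ?_
    split_ifs with hp
    · rw [one_mul]
      unfold pop at hp
      exact (Finset.mem_filter.1 hp).2
    · rw [zero_mul]
      positivity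
  unfold QQ
  have h2 : 1 / 4 * ((A.card : ℝ) ^ 2 * A.card) ≤ gn A (pop A K) y * ((A.card : ℝ) ^ 2 * A.card) :=
    mul_le_mul_of_nonneg_right h (by positivity)
  have h3 : (A.card : ℝ) ^ 3 = (A.card : ℝ) ^ 2 * A.card := by ring
  rw [h3]
  linarith

theorem gn_zero_pop (A : Finset (ZMod N)) (K : ℝ) (hA : A.Nonempty) (hK : 1 ≤ K)
    (hAA : ((A + A).card : ℝ) ≤ K * A.card) : 1 / 2 ≤ gn A (pop A K) 0 := by
  classical
  have hA0 : (0 : ℝ) < A.card := by exact_mod_cast hA.card_pos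
  set U := (A ×ˢ A).filter (fun p => ¬ (p.1 + p.2 ∈ pop A K)) with hU
  have h1 : U.card = ∑ s ∈ (A + A) \ pop A K, (U.filter (fun p => p.1 + p.2 = s)).card := by
    apply Finset.card_eq_sum_card_fiberwise
    intro p hp
    rw [hU, mem_coe, mem_filter, mem_product] at hp
    rw [mem_coe, mem_sdiff]
    exact ⟨add_mem_add hp.1.1 hp.1.2, hp.2⟩
  have h2 : ∀ s ∈ (A + A) \ pop A K, ((U.filter (fun p => p.1 + p.2 = s)).card : ℝ) ≤ A.card / (2 * K) := by
    intro s hs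
    rw [mem_sdiff] at hs
    have h3 : ¬ ((A.card : ℝ) ≤ 2 * K * (rs A s : ℝ)) := by
      intro h
      exact hs.2 (by unfold pop; exact mem_filter.2 ⟨hs.1, h⟩)
    have h4 : (U.filter (fun p => p.1 + p.2 = s)).card ≤ rs A s := by
      unfold rs
      exact card_le_card (filter_subset_filter _ (by rw [hU]; exact filter_subset _ _))
    have h5 : ((U.filter (fun p => p.1 + p.2 = s)).card : ℝ) ≤ (rs A s : ℝ) := by exact_mod_cast h4
    rw [le_div_iff₀ (by linarith)]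
    push Not at h3
    calc ((U.filter (fun p => p.1 + p.2 = s)).card : ℝ) * (2 * K) ≤ (rs A s : ℝ) * (2 * K) :=
          mul_le_mul_of_nonneg_right h5 (by linarith)
      _ ≤ A.card := by linarith
  have h3 : (U.card : ℝ) ≤ (A.card : ℝ) ^ 2 / 2 := by
    rw [h1]
    push_cast
    calc ∑ s ∈ (A + A) \ pop A K, ((U.filter (fun p => p.1 + p.2 = s)).card : ℝ)
        ≤ ∑ _s ∈ (A + A) \ pop A K, (A.card : ℝ) / (2 * K) := sum_le_sum h2
      _ = (((A + A) \ pop A K).card : ℝ) * (A.card / (2 * K)) := by rw [sum_const, nsmul_eq_mul]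
      _ ≤ ((A + A).card : ℝ) * (A.card / (2 * K)) := by
          refine mul_le_mul_of_nonneg_right ?_ (by positivity)
          exact_mod_cast card_le_card sdiff_subset
      _ ≤ (K * A.card) * (A.card / (2 * K)) := mul_le_mul_of_nonneg_right hAA (by positivity)
      _ = (A.card : ℝ) ^ 2 / 2 := by field_simp
  have h4 : gn A (pop A K) 0 * (A.card : ℝ) ^ 2 = (A.card : ℝ) ^ 2 - U.card := by
    rw [gn_mul A _ hA]
    have h5 : (((A ×ˢ A).filter (fun p => p.1 + 0 + p.2 ∈ pop A K)).card : ℝ) =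
        ∑ p ∈ A ×ˢ A, if p.1 + 0 + p.2 ∈ pop A K then (1 : ℝ) else 0 := by
      rw [Finset.card_filter]; push_cast; rfl
    rw [← h5]
    have h6 := Finset.card_filter_add_card_filter_not (s := A ×ˢ A) (fun p => p.1 + p.2 ∈ pop A K)
    rw [card_product] at h6
    have h7 : ((((A ×ˢ A).filter (fun p => p.1 + p.2 ∈ pop A K)).card : ℕ) : ℝ) + (U.card : ℝ) =
        (A.card : ℝ) * A.card := by exact_mod_cast h6
    simp only [add_zero]
    linarith
  have h5 : 1 / 2 * (A.card : ℝ) ^ 2 ≤ gn A (pop A K) 0 * (A.card : ℝ) ^ 2 := by rw [h4]; linarith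
  exact le_of_mul_le_mul_right h5 (by positivity)

theorem t_FOUP : S_FOUP := by
  intro N _ A T K l hA hT hK hAA hl h16 hper y hy
  have hl' : (1 : ℝ) ≤ l := by exact_mod_cast hl
  have hS : ((pop A K).card : ℝ) ≤ K * A.card := by
    refine le_trans ?_ hAA
    exact_mod_cast card_le_card (pop_subset A K)
  have h1 := FOU.gj_diff A (pop A K) T hT _ hper l y
  have h2 := FOU.gj_diff A (pop A K) T hT _ hper l 0
  have h3 := FOU.gj_far A (pop A K) T K l hA hK hS h16 hT y hy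
  have h4 := gn_zero_pop A K hA hK hAA
  have h5 : (l : ℝ) * (1 / (16 * l)) = 1 / 16 := by field_simp
  rw [h5] at h1 h2
  apply pop_rep A K hA hK y
  have a1 := abs_le.1 h1
  have a2 := abs_le.1 h2
  have a3 := abs_le.1 h3
  linarith [a1.1, a1.2, a2.1, a2.2, a3.1, a3.2]

end Run7.h322.LE
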