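import Pool.Agent.N142.CD.AP
import Pool.Agent.Run7.h322.LE.PopStm

set_option autoImplicit false
set_option linter.unusedSectionVars false

namespace Run7.h322.LE

open Finset Pool.Agent.N142.CD
open scoped Pointwise

theorem t_APP (h : S_CS) : S_APP := by
  refine ⟨390003, by norm_num, ?_⟩
  intro N _ A K l hA hK hAA hl
  have hA0 : (0 : ℝ) < A.card := by exact_mod_cast hA.card_pos
  have hl' : (1 : ℝ) ≤ l := by exact_mod_cast hl
  set L : ℝ := Real.log (2 * K) with hL
  have hL2 : 1 / 2 ≤ L := by
    have h1 : Real.log 2 ≤ L := Real.log_le_log (by norm_num) (by linarith)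
    have h2 := Real.log_two_gt_d9
    linarith
  have hexpL : Real.exp L = 2 * K := by rw [hL, Real.exp_log (by linarith)]
  set m : ℕ := ⌈L⌉₊ with hm
  have hmL : L ≤ m := Nat.le_ceil _
  have hm1 : 1 ≤ m := Nat.one_le_iff_ne_zero.2 (by
    intro h0
    rw [h0] at hmL
    simp only [Nat.cast_zero] at hmL
    linarith)
  have hm1' : (1 : ℝ) ≤ m := by exact_mod_cast hm1
  have hmL3 : (m : ℝ) ≤ 3 * L := by
    have := Nat.ceil_lt_add_one (by linarith : 0 ≤ L)
    rw [← hm] at this
    linarith
  set k : ℕ := 130000 * m * l ^ 2 with hk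
  have hk1 : 1 ≤ k := by
    rw [hk]
    have : 1 ≤ l ^ 2 := Nat.one_le_pow _ _ hl
    calc 1 = 1 * 1 * 1 := rfl
      _ ≤ 130000 * m * l ^ 2 := Nat.mul_le_mul (Nat.mul_le_mul (by norm_num) hm1) this
  have hkr : (k : ℝ) = 130000 * m * l ^ 2 := by
    rw [hk]
    push_cast
    ring
  obtain ⟨T, hTA, hT, hper⟩ := h N A (pop A K) K k m hA hAA hk1 hm1
  refine ⟨T, hTA, ?_, ?_⟩
  · refine hT.trans (mul_le_mul_of_nonneg_right ?_ (by positivity))
    calc 2 * K ^ k ≤ (2 * K) * (2 * K) ^ k := by
          refine mul_le_mul (by linarith) (pow_le_pow_left₀ (by linarith) (by linarith) k) (by positivity)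
            (by linarith)
      _ = Real.exp ((k + 1 : ℕ) * L) := by
          rw [Real.exp_nat_mul, hexpL, pow_succ]
          ring
      _ ≤ Real.exp (390003 * l ^ 2 * L ^ 2) := by
          refine Real.exp_le_exp.2 ?_
          push_cast
          rw [hkr]
          have hl2 : (1 : ℝ) ≤ (l : ℝ) ^ 2 := one_le_pow₀ hl'
          have hml : (1 : ℝ) ≤ m * (l : ℝ) ^ 2 := by nlinarith
          have h5 : (130000 * m * (l : ℝ) ^ 2 + 1) ≤ 130001 * (m * (l : ℝ) ^ 2) := by linarith
          have h6 : m * (l : ℝ) ^ 2 ≤ 3 * L * (l : ℝ) ^ 2 := mul_le_mul_of_nonneg_right hmL3 (by positivity)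
          calc (130000 * m * (l : ℝ) ^ 2 + 1) * L ≤ (130001 * (3 * L * (l : ℝ) ^ 2)) * L :=
                mul_le_mul_of_nonneg_right (by linarith) (by linarith)
            _ = 390003 * l ^ 2 * L ^ 2 := by ring
  · intro s hs s' hs' y
    have h1 := AP.gn_pow A (pop A K) hA m s s' y
    have h2 := hper s hs s' hs'
    have h3 : ((pop A K - A).card : ℝ) ≤ K ^ 3 * A.card := by
      refine le_trans ?_ (AP.triple A K hA hAA)
      exact_mod_cast card_le_card (sub_subset_sub_right (pop_subset A K))
    have hr : (6 * m / k : ℝ) = 6 / (130000 * l ^ 2) := by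
      rw [hkr]
      field_simp
    have h4 : (gn A (pop A K) (y + s - s') - gn A (pop A K) y) ^ (2 * m) ≤ (1 / (16 * l)) ^ (2 * m) := by
      calc (gn A (pop A K) (y + s - s') - gn A (pop A K) y) ^ (2 * m)
          ≤ (∑ x, (Fn A (pop A K) (x + s) - Fn A (pop A K) (x + s')) ^ (2 * m)) / A.card := h1
        _ ≤ (2 ^ (2 * m) * (2 * (((pop A K) - A).card * (6 * m / k : ℝ) ^ m))) / A.card :=
            div_le_div_of_nonneg_right h2 hA0.le
        _ ≤ (2 ^ (2 * m) * (2 * ((K ^ 3 * A.card) * (6 * m / k : ℝ) ^ m))) / A.card := by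
            refine div_le_div_of_nonneg_right ?_ hA0.le
            refine mul_le_mul_of_nonneg_left ?_ (by positivity)
            refine mul_le_mul_of_nonneg_left ?_ (by norm_num)
            exact mul_le_mul_of_nonneg_right h3 (by positivity)
        _ = (2 * K ^ 3) * (24 / (130000 * l ^ 2) : ℝ) ^ m := by
            rw [hr, pow_mul]
            have : (24 / (130000 * l ^ 2) : ℝ) = 2 ^ 2 * (6 / (130000 * l ^ 2)) := by ring
            rw [this, mul_pow]
            field_simp
        _ ≤ (20.1 : ℝ) ^ m * (24 / (130000 * l ^ 2) : ℝ) ^ m := by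
            refine mul_le_mul_of_nonneg_right ?_ (by positivity)
            calc 2 * K ^ 3 ≤ (2 * K) ^ 3 := by
                  have : (0 : ℝ) ≤ K ^ 3 := by positivity
                  nlinarith
              _ = Real.exp (3 * L) := by
                  rw [← hexpL, ← Real.exp_nat_mul]
                  norm_num
              _ ≤ Real.exp (m * 3) := Real.exp_le_exp.2 (by linarith)
              _ = Real.exp 3 ^ m := Real.exp_nat_mul _ _
              _ ≤ 20.1 ^ m := pow_le_pow_left₀ (Real.exp_pos _).le AP.exp_three m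
        _ = (20.1 * (24 / (130000 * l ^ 2)) : ℝ) ^ m := (mul_pow _ _ _).symm
        _ ≤ ((1 / (16 * l)) ^ 2) ^ m := by
            refine pow_le_pow_left₀ (by positivity) ?_ m
            rw [div_pow, one_pow, mul_div_assoc', div_le_div_iff₀ (by positivity) (by positivity)]
            nlinarith [sq_nonneg (l : ℝ)]
        _ = (1 / (16 * l)) ^ (2 * m) := (pow_mul _ _ _).symm
    by_contra hcon
    push Not at hcon
    have h5 : (1 / (16 * l) : ℝ) ^ (2 * m) < |gn A (pop A K) (y + s - s') - gn A (pop A K) y| ^ (2 * m) :=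
      pow_lt_pow_left₀ hcon (by positivity) (by omega)
    rw [(even_two_mul m).pow_abs] at h5
    exact absurd h4 (not_le.2 h5)


end Run7.h322.LE
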