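import Pool.Agent.N142.CD.ASM2
import Pool.Agent.Run7.h322.LE.PopStm

set_option autoImplicit false
set_option linter.unusedSectionVars false

/-! Adapted from project CD of helper142 (starting library `Pool/Agent/N142/CD`): popular sums instead of all sums. -/

namespace Run7.h322.LE

open Finset Pool.Agent.TH858 Pool.Agent.N142.CD
open scoped Pointwise

/-- the combinatorial part, without the estimates -/
theorem combP (hFOU : S_FOUP) (hVOL : S_VOL) (hINV : S_INV) (hLCH : S_LCH)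
    (N : ℕ) [NeZero N] (A T₁ : Finset (ZMod N)) (K : ℝ) (l : ℕ) (hA : A.Nonempty) (hK : 1 ≤ K)
    (hAA : ((A + A).card : ℝ) ≤ K * A.card) (hl1 : 1 ≤ l) (hl2 : 16 * K ≤ 4 ^ l)
    (hT : T₁.Nonempty)
    (hT2 : ∀ s ∈ T₁, ∀ s' ∈ T₁, ∀ y : ZMod N, |gn A (pop A K) (y + s - s') - gn A (pop A K) y| ≤ 1 / (16 * l))
    (H : AddSubgroup (ZMod N)) (d : ℕ) (a : Fin d → ZMod N) (L : Fin d → ℕ) (hP : ProperH H a L) (t : ZMod N)
    (hTX : ∀ x ∈ T₁, x - t ∈ HP H a L) (n M : ℕ)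
    (hn : 8 * Real.log (4 * (HP H a L).card / T₁.card) ≤ n) (hM : 32 * ((d : ℝ) + 1) * K ≤ M)
    (R J : ℕ) (hR : (d : ℝ) + 2 ≤ R) (hJ : 8 * Real.pi * K * n ≤ (R : ℝ) ^ (J + 1)) :
    ∃ Γ : Finset (ZMod N), (Γ.card : ℝ) ≤ n * (J + 1) + (175 * d + 1 +
      5 * (Real.log (N / (Nat.card H * (∏ i, (2 * (L i / (4 * (d + 1) * (n + 1) * M)) + 1) : ℕ))) / Real.log R)) ∧
      ∀ y : ZMod N, (∀ g ∈ Γ, CB.nn (g * y) ≤ 1 / (8 * R)) →
        QQ A K y := by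
  classical
  have hKpos : 0 < K := by linarith
  have hM1R : (1 : ℝ) ≤ M := by
    have : (1 : ℝ) ≤ 32 * ((d : ℝ) + 1) * K := by
      have h1 : (0 : ℝ) ≤ d := Nat.cast_nonneg d
      nlinarith
    linarith
  have hM1 : 1 ≤ M := by exact_mod_cast hM1R
  have hR2 : 2 ≤ R := by
    have : (2 : ℝ) ≤ R := by
      have h1 : (0 : ℝ) ≤ d := Nat.cast_nonneg d
      linarith
    exact_mod_cast this
  have hR0 : (0 : ℝ) < R := by exact_mod_cast (by omega : 0 < R)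
  obtain ⟨m, hm⟩ : ∃ m : ℕ, m = n + 1 := ⟨_, rfl⟩
  obtain ⟨L₂, hL₂⟩ : ∃ L₂ : Fin d → ℕ, L₂ = fun i => L i / (4 * (d + 1) * m) := ⟨_, rfl⟩
  obtain ⟨L₃, hL₃⟩ : ∃ L₃ : Fin d → ℕ, L₃ = fun i => L₂ i / M := ⟨_, rfl⟩
  have hq : 0 < 4 * (d + 1) * m := by rw [hm]; positivity
  have h21 : ∀ i, 4 * (d + 1) * m * L₂ i ≤ L i := fun i => by rw [hL₂]; exact Nat.mul_div_le _ _
  have h32 : ∀ i, M * L₃ i ≤ L₂ i := fun i => by rw [hL₃]; exact Nat.mul_div_le _ _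
  have h32' : ∀ i, L₃ i ≤ L₂ i := fun i => by rw [hL₃]; exact Nat.div_le_self _ _
  have h21' : ∀ i, 4 * L₂ i ≤ L i := fun i => by
    have h1 := h21 i
    have h2 : 4 * L₂ i ≤ 4 * (d + 1) * m * L₂ i := by
      have : 1 ≤ (d + 1) * m := by rw [hm]; exact Nat.one_le_iff_ne_zero.2 (by positivity)
      calc 4 * L₂ i = 4 * 1 * L₂ i := by ring
        _ ≤ 4 * ((d + 1) * m) * L₂ i := by gcongr
        _ = _ := by ring
    omega
  -- Chang
  obtain ⟨X, hX⟩ : ∃ X, X = HP H a L := ⟨_, rfl⟩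
  obtain ⟨S, hS⟩ : ∃ S, S = HP H a L₂ := ⟨_, rfl⟩
  obtain ⟨Y, hY⟩ : ∃ Y, Y = HP H a (fun i => L i + m * L₂ i) := ⟨_, rfl⟩
  have hYX : (Y.card : ℝ) ≤ 2 * X.card := by
    have h1 := (hVOL N H d a (fun i => L i + m * L₂ i)).1
    have h2 := (hVOL N H d a L).2 hP
    rw [← hY] at h1
    rw [← hX] at h2
    have h3 := AS.box_double L (fun i => m * L₂ i) (fun i => by
      have := h21 i
      calc 4 * (d + 1) * (m * L₂ i) = 4 * (d + 1) * m * L₂ i := by ring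
        _ ≤ L i := this)
    calc (Y.card : ℝ) ≤ ((Nat.card H * ∏ i, (2 * (L i + m * L₂ i) + 1) : ℕ) : ℝ) := by exact_mod_cast h1
      _ = (Nat.card H : ℝ) * ((∏ i, (2 * (L i + m * L₂ i) + 1) : ℕ) : ℝ) := by push_cast; ring
      _ ≤ (Nat.card H : ℝ) * (2 * ((∏ i, (2 * L i + 1) : ℕ) : ℝ)) := by gcongr
      _ = 2 * ((Nat.card H * ∏ i, (2 * L i + 1) : ℕ) : ℝ) := by push_cast; ring
      _ = 2 * X.card := by rw [h2]
  obtain ⟨Λ, hΛn, hΛ⟩ := hLCH N T₁ X Y S t m n hT ⟨0, by rw [hS]; exact AS.zero_mem_HP H a L₂⟩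
    (fun s hs => by rw [hS] at hs ⊢; exact AS.neg_mem_HP H a L₂ s hs)
    (fun x hx => by rw [hX]; exact hTX x hx)
    (fun x hx s hs => by
      rw [hY]
      rw [hX] at hx
      exact AS.sum_mem_HP H a L L₂ x hx m s fun i => by have := hs i; rwa [hS] at this)
    hYX (by rw [hX]; exact hn) (by omega)
  -- the Bohr set in the short coset progression
  have hL₃eq : L₃ = fun i => L i / (4 * (d + 1) * (n + 1) * M) := by
    rw [hL₃, hL₂, hm]
    funext i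
    rw [Nat.div_div_eq_div_mul]
  obtain ⟨Γ₁, hΓ1, hΓ1'⟩ := GP.coset H a L₃ (AS.mono_HP H a L L₃ (fun i => by
    have h1 := h32' i
    have h2 := h21' i
    omega) hP) R hR
  obtain ⟨Γ₂, hΓ2⟩ : ∃ Γ₂ : Finset (ZMod N), Γ₂ = (Λ ×ˢ range (J + 1)).image
    fun p => ((R ^ p.2 : ℕ) : ZMod N) * p.1 := ⟨_, rfl⟩
  refine ⟨Γ₂ ∪ Γ₁, ?_, ?_⟩
  · have h1 : (Γ₂.card : ℝ) ≤ n * (J + 1) := by
      have : Γ₂.card ≤ n * (J + 1) := by
        rw [hΓ2]
        refine card_image_le.trans ?_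
        rw [card_product, card_range]
        exact Nat.mul_le_mul_right _ hΛn
      exact_mod_cast this
    have h2 : ((Γ₂ ∪ Γ₁).card : ℝ) ≤ Γ₂.card + Γ₁.card := by exact_mod_cast card_union_le _ _
    rw [GP.card_box, hL₃eq] at hΓ1
    linarith
  · intro y hy
    refine hFOU N A T₁ K l hA hT hK hAA hl1 hl2 hT2 y fun γ hγ => ?_
    obtain ⟨ε, hε, hδ⟩ := hΛ γ hγ
    obtain ⟨δ, hδ'⟩ : ∃ δ : ZMod N, δ = γ - ∑ z ∈ Λ, (ε z : ZMod N) * z := ⟨_, rfl⟩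
    rw [← hδ'] at hδ
    have hyL : y ∈ HP H a L₃ := by
      obtain ⟨h, hh, k, hk, he⟩ := hΓ1' y fun g hg => hy g (mem_union_right _ hg)
      rw [mem_HP]
      exact ⟨k, hk, by rw [he]; simpa using hh⟩
    have h1 : ‖ψ (δ * y) - 1‖ ≤ 1 / (16 * K) := by
      have h2 := hINV N H d M a L L₂ L₃ hP hM1 (fun i => by
        have h1 := h32' i
        have h2 := h21' i
        omega) h32 δ (by rw [hS] at hδ; exact hδ) y hyL
      refine h2.trans ?_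
      rw [div_le_div_iff₀ (by linarith) (by positivity)]
      nlinarith
    have h2 : ‖ψ ((∑ z ∈ Λ, (ε z : ZMod N) * z) * y) - 1‖ ≤ 1 / (8 * (2 * K)) := by
      refine bohr_small Λ R J hR2 (2 * K) (by linarith) ?_ y ?_ ε hε
      · refine le_trans ?_ hJ
        have h3 : (Λ.card : ℝ) ≤ n := by exact_mod_cast hΛn
        have := Real.pi_pos
        calc 4 * Real.pi * (2 * K) * Λ.card ≤ 4 * Real.pi * (2 * K) * n := by gcongr
          _ = 8 * Real.pi * K * n := by ring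
      · intro z hz i hi
        have h3 := hy (((R ^ i : ℕ) : ZMod N) * z) (mem_union_left _ (by
          rw [hΓ2, mem_image]
          exact ⟨(z, i), mem_product.2 ⟨hz, mem_range.2 hi⟩, rfl⟩))
        refine h3.trans ?_
        apply one_div_le_one_div_of_le (by positivity)
        linarith
    have h3 : γ * y = (∑ z ∈ Λ, (ε z : ZMod N) * z) * y + δ * y := by rw [hδ']; ring
    rw [h3]
    refine (GP.norm_ψ_sub_one_add _ _).trans ?_
    calc ‖ψ ((∑ z ∈ Λ, (ε z : ZMod N) * z) * y) - 1‖ + ‖ψ (δ * y) - 1‖ ≤ 1 / (8 * (2 * K)) + 1 / (16 * K) :=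
          add_le_add h2 h1
      _ = 1 / (8 * K) := by field_simp; ring


end Run7.h322.LE
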