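import Pool.Agent.N142.CD.FIN2
import Pool.Agent.Run7.h322.LE.PopComb

set_option autoImplicit false
set_option linter.unusedSectionVars false

/-! Adapted from project CD of helper142 (starting library `Pool/Agent/N142/CD`): popular sums instead of all sums. -/

namespace Run7.h322.LE

open Finset Pool.Agent.TH858 Pool.Agent.N142.CD
open scoped Pointwise

/-- the large set of almost periods in a translate of a proper coset progression -/
theorem dataP (hFR : S_FR) (hAP : S_APP) : ∃ C₁ : ℝ, 1 ≤ C₁ ∧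
    ∀ (N : ℕ) [NeZero N] (A : Finset (ZMod N)) (K : ℝ), A.Nonempty → 1 ≤ K →
    ((A + A).card : ℝ) ≤ K * A.card →
    ∃ (l : ℕ) (T₁ : Finset (ZMod N)) (H : AddSubgroup (ZMod N)) (d : ℕ) (a : Fin d → ZMod N) (Lb : Fin d → ℕ)
      (t : ZMod N), 1 ≤ l ∧ 16 * K ≤ 4 ^ l ∧ T₁.Nonempty ∧
      (∀ s ∈ T₁, ∀ s' ∈ T₁, ∀ y : ZMod N, |gn A (pop A K) (y + s - s') - gn A (pop A K) y| ≤ 1 / (16 * l)) ∧
      (d : ℝ) ≤ 300 * Real.log (2 * K) ∧ ProperH H a Lb ∧ (∀ x ∈ T₁, x - t ∈ HP H a Lb) ∧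
      Real.log (4 * (HP H a Lb).card / T₁.card) ≤ C₁ * Real.log (2 * K) ^ 4 ∧
      (A.card : ℝ) ≤ Real.exp (C₁ * Real.log (2 * K) ^ 2) * (HP H a Lb).card := by
  classical
  obtain ⟨CF, hCF, hFR⟩ := hFR
  obtain ⟨CA, hCA, hAP⟩ := hAP
  refine ⟨32 + 8 * CF + 25 * CA, by linarith, ?_⟩
  intro N _ A K hA hK hAA
  obtain ⟨l, hl1, hl2, hl3⟩ := exists_l K hK
  obtain ⟨T₀, hTA, hT1, hT2⟩ := hAP N A K l hA hK hAA hl1
  obtain ⟨H, d, a, Lb, Tc, hd, hP, hX1, hTc, hcov⟩ := hFR N A K hA hK hAA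
  obtain ⟨L, hL⟩ : ∃ L : ℝ, L = Real.log (2 * K) := ⟨_, rfl⟩
  have hL2 : Real.log 2 ≤ L := by rw [hL]; exact Real.log_le_log (by norm_num) (by linarith)
  obtain ⟨hL0, hL41, hL42, hL43, h2L⟩ := pow_facts L hL2
  have hL4 : 0 < L ^ 4 := by positivity
  have hAc : (0 : ℝ) < A.card := by exact_mod_cast hA.card_pos
  have hT₀ : T₀.Nonempty := by
    rw [nonempty_iff_ne_empty]
    rintro rfl
    simp at hT1
    exact absurd hT1 (by simpa using hA.ne_empty)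
  obtain ⟨X, hX⟩ : ∃ X, X = HP H a Lb := ⟨_, rfl⟩
  rw [← hX] at hX1 hcov
  obtain ⟨t, ht, hpig⟩ := AS.pigeon T₀ Tc X (fun x hx => hcov x (hTA hx)) hT₀
  obtain ⟨T₁, hT₁⟩ : ∃ T₁, T₁ = T₀.filter fun x => x - t ∈ X := ⟨_, rfl⟩
  rw [← hT₁] at hpig
  have hT₁ne : T₁.Nonempty := by
    rw [← card_pos]
    rcases Nat.eq_zero_or_pos T₁.card with h | h
    · rw [h, mul_zero] at hpig
      have := hT₀.card_pos
      omega
    · exact h
  have hT₁c : (0 : ℝ) < T₁.card := by exact_mod_cast hT₁ne.card_pos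
  have hcc := AS.cover_card A Tc X hcov
  rw [← hL] at hl3 hT1 hd hX1 hTc
  obtain ⟨E, hE⟩ : ∃ E : ℝ, E = Real.exp (CF * L ^ 2) := ⟨_, rfl⟩
  rw [← hE] at hX1 hTc
  have hE0 : 0 < E := by rw [hE]; exact Real.exp_pos _
  have hlogE : Real.log E = CF * L ^ 2 := by rw [hE, Real.log_exp]
  have hpig' : (T₀.card : ℝ) ≤ E * T₁.card := by
    have h1 : (T₀.card : ℝ) ≤ Tc.card * T₁.card := by exact_mod_cast hpig
    exact h1.trans (mul_le_mul_of_nonneg_right hTc hT₁c.le)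
  have hcc' : (A.card : ℝ) ≤ E * X.card := by
    have h1 : (A.card : ℝ) ≤ Tc.card * X.card := by exact_mod_cast hcc
    exact h1.trans (mul_le_mul_of_nonneg_right hTc (Nat.cast_nonneg _))
  have hXc : (0 : ℝ) < X.card := by
    by_contra hcon
    have h1 : (X.card : ℝ) = 0 := le_antisymm (not_lt.1 hcon) (Nat.cast_nonneg _)
    rw [h1, mul_zero] at hcc'
    linarith
  have hlog4 : Real.log 4 ≤ 2 := by
    have h1 : Real.log 4 = 2 * Real.log 2 := by
      rw [show (4 : ℝ) = 2 ^ 2 by norm_num, Real.log_pow]; norm_num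
    have := Real.log_two_lt_d9
    linarith
  have hBle : Real.log (4 * X.card / T₁.card) ≤ Real.log 4 + 2 * CF * L ^ 2 + 25 * CA * L ^ 4 := by
    have h1 : (A.card : ℝ) ≤ Real.exp (25 * CA * L ^ 4) * (E * T₁.card) := by
      refine hT1.trans ?_
      have h2 : CA * (l : ℝ) ^ 2 * L ^ 2 ≤ 25 * CA * L ^ 4 := by
        calc CA * (l : ℝ) ^ 2 * L ^ 2 ≤ CA * (5 * L) ^ 2 * L ^ 2 := by gcongr
          _ = 25 * CA * L ^ 4 := by ring
      gcongr
    have h2 : 4 * (X.card : ℝ) / T₁.card ≤ 4 * (E * (Real.exp (25 * CA * L ^ 4) * E)) := by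
      rw [div_le_iff₀ hT₁c]
      calc 4 * (X.card : ℝ) ≤ 4 * (E * (Real.exp (25 * CA * L ^ 4) * (E * T₁.card))) := by
            gcongr
            exact hX1.trans (by gcongr)
        _ = _ := by ring
    refine (Real.log_le_log (by positivity) h2).trans ?_
    rw [Real.log_mul (by norm_num) (by positivity), Real.log_mul hE0.ne' (by positivity),
      Real.log_mul (Real.exp_pos _).ne' hE0.ne', Real.log_exp, hlogE]
    linarith
  refine ⟨l, T₁, H, d, a, Lb, t, hl1, hl2, hT₁ne, ?_, ?_, hP, ?_, ?_, ?_⟩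
  · intro s hs s' hs'
    rw [hT₁, mem_filter] at hs hs'
    exact hT2 s hs.1 s' hs'.1
  · rw [← hL]; exact hd
  · intro x hx
    rw [hT₁, mem_filter] at hx
    rw [← hX]
    exact hx.2
  · rw [← hX, ← hL]
    refine hBle.trans ?_
    have h3 : 2 * CF * L ^ 2 ≤ 2 * CF * (4 * L ^ 4) := by gcongr
    linarith
  · rw [← hX, ← hL]
    refine hcc'.trans ?_
    rw [hE]
    have h1 : CF * L ^ 2 ≤ (32 + 8 * CF + 25 * CA) * L ^ 2 := by
      gcongr
      linarith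
    gcongr

/-- the main bound with a free parameter `R` -/
theorem core2P (hFR : S_FR) (hAP : S_APP) (hFOU : S_FOUP) (hVOL : S_VOL) (hINV : S_INV) (hLCH : S_LCH) :
    ∃ C : ℝ, 1 ≤ C ∧ ∀ (N : ℕ) [NeZero N] (A : Finset (ZMod N)) (K : ℝ) (R : ℕ), A.Nonempty → 1 ≤ K →
    ((A + A).card : ℝ) ≤ K * A.card → 300 * Real.log (2 * K) + 3 ≤ R →
    ∃ Γ : Finset (ZMod N), (Γ.card : ℝ) ≤
      C * (Real.log (N / A.card) / Real.log R + Real.log (2 * K) ^ 4 * (1 + Real.log (2 * K) / Real.log R)) ∧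
      ∀ y : ZMod N, (∀ g ∈ Γ, CB.nn (g * y) ≤ 1 / (8 * R)) →
        QQ A K y := by
  obtain ⟨C₁, hC₁, hdata⟩ := dataP hFR hAP
  obtain ⟨C₂, hC₂, hnum⟩ := numbers C₁ hC₁
  refine ⟨5 + C₂ + 420016 + 20 * (C₁ + 300 * C₂), by linarith, ?_⟩
  intro N _ A K R hA hK hAA hR
  obtain ⟨l, T₁, H, d, a, Lb, t, hl1, hl2, hT₁, hAPP, hd, hP, hTX, hlog, hAX⟩ := hdata N A K hA hK hAA
  obtain ⟨n, M, J, hn1, hM1, hMnat, hpow, hnJ, hlogq⟩ := hnum K d R hK hd hR
  have hL2 : Real.log 2 ≤ Real.log (2 * K) := Real.log_le_log (by norm_num) (by linarith)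
  obtain ⟨hL0, hL41, hL42, hL43, h2L⟩ := pow_facts _ hL2
  obtain ⟨Γ, hΓ1, hΓ2⟩ := combP hFOU hVOL hINV hLCH N A T₁ K l hA hK hAA hl1 hl2 hT₁ hAPP H d a Lb hP t hTX n M
    (by linarith) hM1 R J (by linarith) hpow
  refine ⟨Γ, ?_, hΓ2⟩
  obtain ⟨q, hq⟩ : ∃ q : ℕ, q = 4 * (d + 1) * (n + 1) * M := ⟨_, rfl⟩
  rw [← hq] at hΓ1 hlogq
  have hq1 : 1 ≤ q := by rw [hq]; exact Nat.one_le_iff_ne_zero.2 (by positivity)
  obtain ⟨V₃, hV₃⟩ : ∃ V₃ : ℕ, V₃ = ∏ i, (2 * (Lb i / q) + 1) := ⟨_, rfl⟩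
  rw [← hV₃] at hΓ1
  have hvolX := (hVOL N H d a Lb).2 hP
  obtain ⟨X, hX⟩ : ∃ X, X = HP H a Lb := ⟨_, rfl⟩
  rw [← hX] at hlog hAX hvolX
  obtain ⟨L, hL⟩ : ∃ L : ℝ, L = Real.log (2 * K) := ⟨_, rfl⟩
  rw [← hL] at hd hlog hAX hR hn1 hnJ hlogq hL2 hL0 hL41 hL42 hL43 h2L ⊢
  have hL4 : 0 < L ^ 4 := by positivity
  have hAc : (0 : ℝ) < A.card := by exact_mod_cast hA.card_pos
  have hNpos : (0 : ℝ) < N := by exact_mod_cast NeZero.pos N
  have hV₃0 : (0 : ℝ) < V₃ := by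
    have : 0 < V₃ := by rw [hV₃]; exact prod_pos fun i _ => by omega
    exact_mod_cast this
  have hHc : (0 : ℝ) < Nat.card H := by exact_mod_cast Nat.card_pos
  have hq1R : (1 : ℝ) ≤ q := by exact_mod_cast hq1
  obtain ⟨E, hE⟩ : ∃ E : ℝ, E = Real.exp (C₁ * L ^ 2) := ⟨_, rfl⟩
  rw [← hE] at hAX
  have hE0 : 0 < E := by rw [hE]; exact Real.exp_pos _
  have hlogE : Real.log E = C₁ * L ^ 2 := by rw [hE, Real.log_exp]
  have hvol : (A.card : ℝ) ≤ E * ((Nat.card H : ℝ) * ((2 * (q : ℝ)) ^ d * V₃)) := by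
    have h2 : (X.card : ℝ) ≤ (Nat.card H : ℝ) * ((2 * (q : ℝ)) ^ d * V₃) := by
      rw [hvolX]
      push_cast
      have h3 := AS.box_ratio Lb q hq1
      rw [← hV₃] at h3
      push_cast at h3
      gcongr
    exact hAX.trans (by gcongr)
  have hR3 : (3 : ℝ) ≤ R := by linarith
  have hR0 : (0 : ℝ) < R := by linarith
  have hlogR : 1 ≤ Real.log R := by
    rw [Real.le_log_iff_exp_le hR0]
    have := Real.exp_one_lt_d9
    linarith
  have hlogR0 : 0 < Real.log R := by linarith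
  have hlogvol : Real.log (N / (Nat.card H * V₃)) ≤ Real.log (N / A.card) + (C₁ + 300 * C₂) * L ^ 2 := by
    have h1 : (N : ℝ) / (Nat.card H * V₃) ≤ (N / A.card) * (E * (2 * (q : ℝ)) ^ d) := by
      rw [div_mul_eq_mul_div, div_le_div_iff₀ (by positivity) hAc]
      calc (N : ℝ) * A.card ≤ N * (E * ((Nat.card H : ℝ) * ((2 * (q : ℝ)) ^ d * V₃))) := by gcongr
        _ = _ := by ring
    refine (Real.log_le_log (by positivity) h1).trans ?_
    rw [Real.log_mul (by positivity) (by positivity), Real.log_mul hE0.ne' (by positivity), hlogE, Real.log_pow]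
    have h2 : (d : ℝ) * Real.log (2 * q) ≤ 300 * C₂ * L ^ 2 := by
      have h3 : 0 ≤ Real.log (2 * q) := Real.log_nonneg (by linarith)
      calc (d : ℝ) * Real.log (2 * q) ≤ (300 * L) * (C₂ * L) := by gcongr
        _ = 300 * C₂ * L ^ 2 := by ring
    linarith
  have hLR : 0 ≤ L / Real.log R := by positivity
  have e2 : 175 * (d : ℝ) + 1 ≤ 420016 * L ^ 4 := by linarith
  have hCC : 0 ≤ C₁ + 300 * C₂ := by linarith
  have e3 : Real.log (N / (Nat.card H * V₃)) / Real.log R ≤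
      Real.log (N / A.card) / Real.log R + 4 * (C₁ + 300 * C₂) * L ^ 4 := by
    have h1 : Real.log (N / (Nat.card H * V₃)) / Real.log R ≤
        (Real.log (N / A.card) + (C₁ + 300 * C₂) * L ^ 2) / Real.log R := by gcongr
    have h2 : (C₁ + 300 * C₂) * L ^ 2 / Real.log R ≤ (C₁ + 300 * C₂) * (4 * L ^ 4) := by
      rw [div_le_iff₀ hlogR0]
      have h3 : (C₁ + 300 * C₂) * L ^ 2 ≤ (C₁ + 300 * C₂) * (4 * L ^ 4) := by gcongr
      have h4 : 0 ≤ (C₁ + 300 * C₂) * (4 * L ^ 4) := by positivity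
      have h5 := mul_le_mul_of_nonneg_left hlogR h4
      linarith
    rw [add_div] at h1
    linarith
  have e4 : L ^ 4 ≤ L ^ 4 * (1 + L / Real.log R) := by
    have := mul_nonneg hL4.le hLR
    linarith
  have hx0 : 0 ≤ Real.log (N / A.card) / Real.log R := by
    apply div_nonneg _ hlogR0.le
    apply Real.log_nonneg
    rw [le_div_iff₀ hAc, one_mul]
    have := card_le_univ A
    rw [ZMod.card] at this
    exact_mod_cast this
  obtain ⟨x', hx'⟩ : ∃ x' : ℝ, x' = Real.log (N / A.card) / Real.log R := ⟨_, rfl⟩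
  obtain ⟨W, hW⟩ : ∃ W : ℝ, W = L ^ 4 * (1 + L / Real.log R) := ⟨_, rfl⟩
  rw [← hx'] at e3 hx0 ⊢
  rw [← hW] at hnJ e4 ⊢
  have e5 : (C₁ + 300 * C₂) * L ^ 4 ≤ (C₁ + 300 * C₂) * W := by gcongr
  have e6 : (420016 : ℝ) * L ^ 4 ≤ 420016 * W := by gcongr
  have e7 : 0 ≤ (C₂ + 420016 + 20 * (C₁ + 300 * C₂)) * x' := by positivity
  have hW0 : 0 ≤ W := le_trans hL4.le e4
  calc (Γ.card : ℝ) ≤ n * (J + 1) + (175 * d + 1 +
      5 * (Real.log (N / (Nat.card H * V₃)) / Real.log R)) := hΓ1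
    _ ≤ C₂ * W + (420016 * W + 5 * (x' + 4 * (C₁ + 300 * C₂) * L ^ 4)) := by
        have := e2.trans e6
        linarith
    _ ≤ (5 + C₂ + 420016 + 20 * (C₁ + 300 * C₂)) * (x' + W) := by
        have h8 : (5 + C₂ + 420016 + 20 * (C₁ + 300 * C₂)) * (x' + W) =
          5 * x' + (C₂ + 420016 + 20 * (C₁ + 300 * C₂)) * x' + 5 * W + C₂ * W + 420016 * W +
            20 * ((C₁ + 300 * C₂) * W) := by ring
        rw [h8]
        linarith

/-- choice of the parameters -/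
theorem fin3P (hFR : S_FR) (hAP : S_APP) (hFOU : S_FOUP) (hVOL : S_VOL) (hINV : S_INV) (hLCH : S_LCH) :
    ∃ C : ℝ, 1 ≤ C ∧
    ∀ (N : ℕ) [NeZero N] (A : Finset (ZMod N)) (K : ℝ), A.Nonempty → (A.card : ℝ) / N ≤ 1 / 2 → 1 ≤ K →
    ((A + A).card : ℝ) ≤ K * A.card →
    ∃ (Γ : Finset (ZMod N)) (ε : ℝ), 0 < ε ∧
      (Γ.card : ℝ) ≤ C * (Real.log (N / A.card) / Real.log (2 + Real.log (N / A.card)) +
        Real.log (2 * K) ^ 4 * (1 + Real.log (2 * K) / Real.log (2 + Real.log (N / A.card)))) ∧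
      1 / C / Real.log (N / A.card) ≤ ε ∧
      ∀ y : ZMod N, (∀ g ∈ Γ, CB.nn (g * y) ≤ ε) →
        QQ A K y := by
  classical
  obtain ⟨C, hC, hcore⟩ := core2P hFR hAP hFOU hVOL hINV hLCH
  refine ⟨C + 4872, by linarith, ?_⟩
  intro N _ A K hA hα hK hAA
  have hAc : (0 : ℝ) < A.card := by exact_mod_cast hA.card_pos
  have hNpos : (0 : ℝ) < N := by exact_mod_cast NeZero.pos N
  have hlog2 := Real.log_two_gt_d9
  have hlog2' := Real.log_two_lt_d9
  have hNA : 2 ≤ (N : ℝ) / A.card := by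
    rw [div_le_iff₀ hNpos] at hα
    rw [le_div_iff₀ hAc]
    linarith
  have hx2 : Real.log 2 ≤ Real.log (N / A.card) := Real.log_le_log (by norm_num) hNA
  obtain ⟨x, hx⟩ : ∃ x : ℝ, x = Real.log (N / A.card) := ⟨_, rfl⟩
  obtain ⟨K', hK'⟩ : ∃ K' : ℝ, K' = min K (N / A.card) := ⟨_, rfl⟩
  have hK'1 : 1 ≤ K' := by rw [hK']; exact le_min hK (by linarith)
  have hAA' : ((A + A).card : ℝ) ≤ K' * A.card := by
    rw [hK', min_mul_of_nonneg _ _ hAc.le]
    refine le_min hAA ?_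
    rw [div_mul_cancel₀ _ hAc.ne']
    have := card_le_univ (A + A)
    rw [ZMod.card] at this
    exact_mod_cast this
  obtain ⟨L', hL'⟩ : ∃ L' : ℝ, L' = Real.log (2 * K') := ⟨_, rfl⟩
  obtain ⟨L, hL⟩ : ∃ L : ℝ, L = Real.log (2 * K) := ⟨_, rfl⟩
  have hL'L : L' ≤ L := by
    rw [hL', hL]
    apply Real.log_le_log (by linarith)
    have : K' ≤ K := by rw [hK']; exact min_le_left _ _
    linarith
  have hL'0 : 0 < L' := by rw [hL']; exact Real.log_pos (by linarith)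
  have hL'x : L' ≤ Real.log 2 + x := by
    rw [hL', hx, ← Real.log_mul (by norm_num) (by positivity)]
    apply Real.log_le_log (by linarith)
    have : K' ≤ N / A.card := by rw [hK']; exact min_le_right _ _
    linarith
  obtain ⟨R, hR⟩ : ∃ R : ℕ, R = ⌈x⌉₊ + ⌈300 * L'⌉₊ + 3 := ⟨_, rfl⟩
  rw [← hx] at hx2
  have hx0 : 0 < x := by linarith
  have h1 := Nat.le_ceil x
  have h2 := (Nat.ceil_lt_add_one hx0.le).le
  have h3 := Nat.le_ceil (300 * L')
  have h4 := (Nat.ceil_lt_add_one (by positivity : 0 ≤ 300 * L')).le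
  have hRR : (R : ℝ) = ⌈x⌉₊ + ⌈300 * L'⌉₊ + 3 := by rw [hR]; push_cast; ring
  obtain ⟨Γ, hΓ1, hΓ2⟩ := hcore N A K' R hA hK'1 hAA' (by rw [← hL', hRR]; linarith)
  have hRx : 2 + x ≤ (R : ℝ) := by rw [hRR]; linarith
  have hRx' : (R : ℝ) ≤ 609 * x := by rw [hRR]; linarith
  have hR0 : (0 : ℝ) < R := by linarith
  refine ⟨Γ, 1 / (8 * R), by positivity, ?_, ?_, fun y hy =>
    QQ_mono A K' K (by rw [hK']; exact min_le_left _ _) y (hΓ2 y hy)⟩
  · rw [← hx, ← hL'] at hΓ1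
    rw [← hx, ← hL]
    have hlx : 0 < Real.log (2 + x) := Real.log_pos (by linarith)
    have hlR : Real.log (2 + x) ≤ Real.log R := Real.log_le_log (by linarith) hRx
    have e1 : x / Real.log R ≤ x / Real.log (2 + x) := div_le_div_of_nonneg_left hx0.le hlx hlR
    have e2 : L' / Real.log R ≤ L / Real.log (2 + x) := by
      calc L' / Real.log R ≤ L' / Real.log (2 + x) := div_le_div_of_nonneg_left hL'0.le hlx hlR
        _ ≤ L / Real.log (2 + x) := by gcongr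
    have hL0 : 0 < L := by linarith
    calc (Γ.card : ℝ) ≤ C * (x / Real.log R + L' ^ 4 * (1 + L' / Real.log R)) := hΓ1
      _ ≤ C * (x / Real.log (2 + x) + L ^ 4 * (1 + L / Real.log (2 + x))) := by
          have hlR0 : 0 < Real.log R := by linarith
          gcongr
      _ ≤ (C + 4872) * (x / Real.log (2 + x) + L ^ 4 * (1 + L / Real.log (2 + x))) := by
          gcongr
          linarith
  · rw [← hx, div_div, div_le_div_iff₀ (by positivity) (by positivity), one_mul, one_mul]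
    nlinarith


end Run7.h322.LE
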