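import Pool.Agent.N142.CD.FIN3
import Pool.Agent.Run7.h322.LE.PopFin2

set_option autoImplicit false
set_option linter.unusedSectionVars false

/-! Adapted from project CD of helper142 (starting library `Pool/Agent/N142/CD`): popular sums instead of all sums. -/

namespace Run7.h322.LE

open Finset Pool.Agent.TH858 Pool.Agent.N142.CD
open scoped Pointwise

/-- the main theorem -/
theorem fin4P (hFR : S_FR) (hAP : S_APP) (hFOU : S_FOUP) (hVOL : S_VOL) (hINV : S_INV) (hLCH : S_LCH) :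
    ∃ C : ℝ, 1 ≤ C ∧
    ∀ (N : ℕ) [NeZero N] (A : Finset (ZMod N)) (K : ℝ), A.Nonempty → (A.card : ℝ) / N ≤ 1 / 2 → 1 ≤ K →
    ((A + A).card : ℝ) ≤ K * A.card →
    ∃ (Γ : Finset (ZMod N)) (ε : ℝ), 0 < ε ∧
      (Γ.card : ℝ) ≤ C * ((Real.log (N / A.card) + Real.log (2 * K) ^ 5) /
        Real.log (2 + Real.log (N / A.card))) ∧
      1 / C / Real.log (N / A.card) ≤ ε ∧
      ∀ y : ZMod N, (∀ g ∈ Γ, CB.nn (g * y) ≤ ε) →
        QQ A K y := by
  obtain ⟨C, hC, h⟩ := fin3P hFR hAP hFOU hVOL hINV hLCH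
  refine ⟨12501 * C, by linarith, ?_⟩
  intro N _ A K hA hα hK hAA
  obtain ⟨Γ, ε, h1, h2, h3, h4⟩ := h N A K hA hα hK hAA
  have hAc : (0 : ℝ) < A.card := by exact_mod_cast hA.card_pos
  have hNpos : (0 : ℝ) < N := by exact_mod_cast NeZero.pos N
  have hx2 : Real.log 2 ≤ Real.log (N / A.card) := by
    apply Real.log_le_log (by norm_num)
    rw [div_le_iff₀ hNpos] at hα
    rw [le_div_iff₀ hAc]
    linarith
  have hL0 : 0 < Real.log (2 * K) := Real.log_pos (by linarith)
  have hx0 : 0 < Real.log (N / A.card) := lt_of_lt_of_le (Real.log_pos (by norm_num)) hx2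
  refine ⟨Γ, ε, h1, ?_, ?_, h4⟩
  · have h5 := simplify (Real.log (N / A.card)) (Real.log (2 * K)) hx2 hL0
    calc (Γ.card : ℝ) ≤ C * (Real.log (N / A.card) / Real.log (2 + Real.log (N / A.card)) +
          Real.log (2 * K) ^ 4 * (1 + Real.log (2 * K) / Real.log (2 + Real.log (N / A.card)))) := h2
      _ ≤ C * (12501 * ((Real.log (N / A.card) + Real.log (2 * K) ^ 5) /
          Real.log (2 + Real.log (N / A.card)))) := by gcongr
      _ = _ := by ring
  · refine le_trans ?_ h3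
    gcongr
    linarith


end Run7.h322.LE
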