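import Pool.Agent.N142.CD.FIN3
import Pool.Agent.N142.CD.MOM
import Pool.Agent.N142.CD.CS
import Pool.Agent.N142.CD.FR
import Pool.Agent.N142.CD.VOL
import Pool.Agent.N142.CD.INV
import Pool.Agent.N142.CD.LCH
import Pool.Agent.Run7.h322.LE.PopAP
import Pool.Agent.Run7.h322.LE.PopFin3
import Pool.Agent.Run7.h322.LE.Energy

set_option autoImplicit false

/-! # Bohr sets of popular elements of `2A - 2A` for sets of large additive energy -/

open Finset
open scoped Pointwise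

namespace Run7.h322.LE

/-- the Bohr set -/
def bohr {N : ℕ} (Γ : Finset (ZMod N)) (ε : ℝ) : Set (ZMod N) :=
  {x | ∀ γ ∈ Γ, |((γ * x).val : ℝ) / (N : ℝ) - ((round (((γ * x).val : ℝ) / (N : ℝ)) : ℤ) : ℝ)| ≤ ε}

/-- `log (1/α)` -/
noncomputable def logDens {N : ℕ} (A : Finset (ZMod N)) : ℝ := Real.log ((N : ℝ) / (A.card : ℝ))

theorem popular : ∃ C : ℝ, 1 ≤ C ∧ ∀ (N : ℕ), 0 < N → ∀ (A : Finset (ZMod N)) (K : ℝ), A.Nonempty →
      (A.card : ℝ) / (N : ℝ) ≤ 1 / 2 → 1 ≤ K → ((A + A).card : ℝ) ≤ K * A.card →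
      ∃ (Γ : Finset (ZMod N)) (ε : ℝ), 0 < ε ∧
        (Γ.card : ℝ) ≤ C * ((logDens A + Real.log (2 * K) ^ 5) / Real.log (2 + logDens A)) ∧
        1 / C / logDens A ≤ ε ∧ ∀ y ∈ bohr Γ ε, QQ A K y := by
  obtain ⟨C, hC, h⟩ := fin4P Pool.Agent.N142.CD.t_FR (t_APP (Pool.Agent.N142.CD.t_CS Pool.Agent.N142.CD.t_MOM))
    t_FOUP Pool.Agent.N142.CD.t_VOL Pool.Agent.N142.CD.t_INV Pool.Agent.N142.CD.t_LCH
  refine ⟨C, hC, fun N hN A K hA hα hK hAA => ?_⟩
  have : NeZero N := ⟨hN.ne'⟩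
  obtain ⟨Γ, ε, h2, h3, h4, h5⟩ := h N A K hA hα hK hAA
  exact ⟨Γ, ε, h2, h3, h4, fun y hy => h5 y fun g hg => hy g hg⟩

theorem logDens_mono {N : ℕ} (hN : 0 < N) {A B : Finset (ZMod N)} (hBA : B ⊆ A) (hB : B.Nonempty) :
    logDens A ≤ logDens B := by
  have hn : (0 : ℝ) < N := by exact_mod_cast hN
  have hb : (0 : ℝ) < B.card := by exact_mod_cast hB.card_pos
  have hba : (B.card : ℝ) ≤ A.card := by exact_mod_cast Finset.card_le_card hBA
  have ha : (0 : ℝ) < A.card := by linarith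
  unfold logDens
  exact Real.log_le_log (by positivity) (div_le_div_of_nonneg_left hn.le hb hba)

theorem log_two_le {N : ℕ} (hN : 0 < N) {A : Finset (ZMod N)} (hA : A.Nonempty)
    (hα : (A.card : ℝ) / (N : ℝ) ≤ 1 / 2) : Real.log 2 ≤ logDens A := by
  have ha : (0 : ℝ) < A.card := by exact_mod_cast hA.card_pos
  have hn : (0 : ℝ) < N := by exact_mod_cast hN
  unfold logDens
  apply Real.log_le_log (by norm_num)
  rw [le_div_iff₀ ha]
  rw [div_le_div_iff₀ hn (by norm_num)] at hα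
  linarith

theorem RR_mono {N : ℕ} {A B : Finset (ZMod N)} (hBA : B ⊆ A) (y : ZMod N) : RR B y ≤ RR A y := by
  unfold RR
  exact card_le_card (filter_subset_filter _ (product_subset_product
    (product_subset_product hBA hBA) (product_subset_product hBA hBA)))

theorem main1 : ∃ C : ℝ, 1 ≤ C ∧ ∀ (N : ℕ), 0 < N → ∀ (A : Finset (ZMod N)) (K : ℝ), A.Nonempty →
      (A.card : ℝ) / (N : ℝ) ≤ 1 / 2 → 1 ≤ K → (A.card : ℝ) ^ 3 ≤ K ^ 2 * (A.addEnergy A : ℝ) →
      ∃ (Γ : Finset (ZMod N)) (ε : ℝ), 0 < ε ∧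
        (Γ.card : ℝ) ≤ C * ((logDens A + Real.log (2 * K) ^ 5) / Real.log (2 + logDens A)) ∧
        1 / C / logDens A ≤ ε ∧
        ∀ y ∈ bohr Γ ε, (A.card : ℝ) ^ 3 ≤ 2 ^ 56 * K ^ 46 * (RR A y : ℝ) := by
  obtain ⟨C₀, hC₀, h0⟩ := popular
  refine ⟨45 ^ 5 * C₀, by nlinarith, fun N hN A K hA hα hK hE => ?_⟩
  have : NeZero N := ⟨hN.ne'⟩
  have ha : (0 : ℝ) < A.card := by exact_mod_cast hA.card_pos
  have hn : (0 : ℝ) < N := by exact_mod_cast hN
  have h2a : 2 * (A.card : ℝ) ≤ N := by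
    have := hα
    rw [div_le_div_iff₀ hn (by norm_num)] at this
    linarith
  set q : ℝ := (N : ℝ) / A.card with hq
  have hq2 : 2 ≤ q := by rw [hq, le_div_iff₀ ha]; exact h2a
  have hE1 : (A.card : ℝ) ^ 3 ≤ q * (A.addEnergy A : ℝ) := by
    have h1 : (A.card : ℝ) ^ 2 * (A.card : ℝ) ^ 2 ≤ ((A + A).card : ℝ) * (A.addEnergy A : ℝ) := by
      exact_mod_cast Finset.le_card_add_mul_addEnergy A A
    have h2 : ((A + A).card : ℝ) ≤ N := by
      have := Finset.card_le_univ (A + A)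
      rw [ZMod.card] at this
      exact_mod_cast this
    rw [hq, div_mul_eq_mul_div, le_div_iff₀ ha]
    calc (A.card : ℝ) ^ 3 * A.card = (A.card : ℝ) ^ 2 * (A.card : ℝ) ^ 2 := by ring
      _ ≤ ((A + A).card : ℝ) * (A.addEnergy A : ℝ) := h1
      _ ≤ N * (A.addEnergy A : ℝ) := mul_le_mul_of_nonneg_right h2 (Nat.cast_nonneg _)
  set K₁ : ℝ := min K (Real.sqrt q) with hK₁
  have hK1 : 1 ≤ K₁ := le_min hK (Real.one_le_sqrt.2 (by linarith))
  have hK1K : K₁ ≤ K := min_le_left _ _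
  have hK1q : K₁ ^ 2 ≤ q := by
    calc K₁ ^ 2 ≤ (Real.sqrt q) ^ 2 := pow_le_pow_left₀ (by linarith) (min_le_right _ _) 2
      _ = q := Real.sq_sqrt (by linarith)
  have hE2 : (A.card : ℝ) ^ 3 ≤ K₁ ^ 2 * (A.addEnergy A : ℝ) := by
    rcases min_choice K (Real.sqrt q) with h | h
    · rw [hK₁, h]; exact hE
    · rw [hK₁, h, Real.sq_sqrt (by linarith)]; exact hE1
  obtain ⟨B, hBA, hB, h3, h4⟩ := piece A hA K₁ hK1 hE2
  have hb : (0 : ℝ) < B.card := by exact_mod_cast hB.card_pos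
  have hba : (B.card : ℝ) ≤ A.card := by exact_mod_cast Finset.card_le_card hBA
  have hxq : logDens A = Real.log q := rfl
  have hx2 : Real.log 2 ≤ logDens A := log_two_le hN hA hα
  have hlog2 : 0 < Real.log 2 := Real.log_pos (by norm_num)
  have hxB' : logDens A ≤ logDens B := logDens_mono hN hBA hB
  have hlK1 : 0 ≤ Real.log K₁ := Real.log_nonneg hK1
  have hlK1x : 2 * Real.log K₁ ≤ logDens A := by
    have h5 := Real.log_le_log (by positivity) hK1q
    rw [Real.log_pow] at h5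
    push_cast at h5
    rw [hxq]; exact h5
  have hxB : logDens B ≤ 5 * logDens A := by
    have h5 : (N : ℝ) / B.card ≤ q * (2 ^ 3 * K₁ ^ 2) := by
      rw [div_le_iff₀ hb, hq]
      have h6 : (1 : ℝ) ≤ (8 * K₁ ^ 2 * B.card) / A.card := by
        rw [le_div_iff₀ ha]; linarith
      calc (N : ℝ) = N * 1 := by ring
        _ ≤ N * ((8 * K₁ ^ 2 * B.card) / A.card) := mul_le_mul_of_nonneg_left h6 hn.le
        _ = _ := by ring
    have h6 := Real.log_le_log (by positivity) h5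
    rw [Real.log_mul (by positivity) (by positivity), Real.log_mul (by norm_num) (by positivity),
      Real.log_pow, Real.log_pow] at h6
    push_cast at h6
    have h7 : logDens B = Real.log ((N : ℝ) / B.card) := rfl
    rw [h7, hxq] at *
    linarith
  have hLK : Real.log (2 * K) = Real.log 2 + Real.log K :=
    Real.log_mul (by norm_num) (by linarith)
  have hK1le : Real.log K₁ ≤ Real.log K := Real.log_le_log (by linarith) hK1K
  have hL2 : Real.log (2 * (2 ^ 22 * K₁ ^ 20) ^ 2) ≤ 45 * Real.log (2 * K) := by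
    rw [show (2 : ℝ) * (2 ^ 22 * K₁ ^ 20) ^ 2 = 2 ^ 45 * K₁ ^ 40 by ring,
      Real.log_mul (by positivity) (by positivity), Real.log_pow, Real.log_pow, hLK]
    push_cast
    linarith
  have hone : (1 : ℝ) ≤ (2 ^ 22 * K₁ ^ 20) ^ 2 := by
    have h5 : (1 : ℝ) ≤ K₁ ^ 20 := one_le_pow₀ hK1
    have h6 : (1 : ℝ) ≤ 2 ^ 22 * K₁ ^ 20 := by nlinarith
    exact one_le_pow₀ h6
  have hL0 : 0 ≤ Real.log (2 * (2 ^ 22 * K₁ ^ 20) ^ 2) := Real.log_nonneg (by linarith)
  have hαB : (B.card : ℝ) / (N : ℝ) ≤ 1 / 2 := (div_le_div_of_nonneg_right hba hn.le).trans hα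
  obtain ⟨Γ, ε, h7, h8, h9, h10⟩ := h0 N hN B ((2 ^ 22 * K₁ ^ 20) ^ 2) hB hαB hone h4
  refine ⟨Γ, ε, h7, ?_, ?_, ?_⟩
  · have hl1 : 0 < Real.log (2 + logDens A) := Real.log_pos (by linarith)
    have hl2 : Real.log (2 + logDens A) ≤ Real.log (2 + logDens B) :=
      Real.log_le_log (by linarith) (by linarith)
    have hLp : Real.log (2 * (2 ^ 22 * K₁ ^ 20) ^ 2) ^ 5 ≤ 45 ^ 5 * Real.log (2 * K) ^ 5 := by
      calc _ ≤ (45 * Real.log (2 * K)) ^ 5 := pow_le_pow_left₀ hL0 hL2 5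
        _ = _ := by ring
    have hLn : 0 ≤ Real.log (2 * (2 ^ 22 * K₁ ^ 20) ^ 2) ^ 5 := pow_nonneg hL0 5
    have hnum : logDens B + Real.log (2 * (2 ^ 22 * K₁ ^ 20) ^ 2) ^ 5 ≤
        45 ^ 5 * (logDens A + Real.log (2 * K) ^ 5) := by
      nlinarith
    have hnum0 : 0 ≤ 45 ^ 5 * (logDens A + Real.log (2 * K) ^ 5) := by linarith
    calc (Γ.card : ℝ) ≤ C₀ * ((logDens B + Real.log (2 * (2 ^ 22 * K₁ ^ 20) ^ 2) ^ 5) /
          Real.log (2 + logDens B)) := h8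
      _ ≤ C₀ * ((45 ^ 5 * (logDens A + Real.log (2 * K) ^ 5)) / Real.log (2 + logDens A)) :=
          mul_le_mul_of_nonneg_left (div_le_div₀ hnum0 hnum hl1 hl2) (by linarith)
      _ = _ := by ring
  · refine le_trans ?_ h9
    have hxB0 : 0 < logDens B := by linarith
    have hxA0 : 0 < logDens A := by linarith
    rw [div_div, div_div]
    apply one_div_le_one_div_of_le (by positivity)
    have : C₀ * logDens B ≤ C₀ * (5 * logDens A) := mul_le_mul_of_nonneg_left hxB (by linarith)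
    have h11 : 0 < C₀ * logDens A := by positivity
    nlinarith
  · intro y hy
    have h11 : (B.card : ℝ) ^ 3 ≤ 8 * (2 ^ 22 * K₁ ^ 20) ^ 2 * (RR B y : ℝ) := h10 y hy
    have h12 : (RR B y : ℝ) ≤ (RR A y : ℝ) := by exact_mod_cast RR_mono hBA y
    have hK0 : 0 ≤ K₁ := by linarith
    calc (A.card : ℝ) ^ 3 ≤ (8 * K₁ ^ 2 * B.card) ^ 3 := pow_le_pow_left₀ ha.le h3 3
      _ = 512 * K₁ ^ 6 * (B.card : ℝ) ^ 3 := by ring
      _ ≤ 512 * K₁ ^ 6 * (8 * (2 ^ 22 * K₁ ^ 20) ^ 2 * (RR B y : ℝ)) :=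
          mul_le_mul_of_nonneg_left h11 (by positivity)
      _ = 2 ^ 56 * K₁ ^ 46 * (RR B y : ℝ) := by ring
      _ ≤ 2 ^ 56 * K₁ ^ 46 * (RR A y : ℝ) := mul_le_mul_of_nonneg_left h12 (by positivity)
      _ ≤ 2 ^ 56 * K ^ 46 * (RR A y : ℝ) := by
          refine mul_le_mul_of_nonneg_right ?_ (Nat.cast_nonneg _)
          exact mul_le_mul_of_nonneg_left (pow_le_pow_left₀ hK0 hK1K 46) (by norm_num)

/-- the dimension and the radius in terms of `x` -/
theorem main2 (D : ℝ) (hD : 1 ≤ D) : ∃ C : ℝ, 1 ≤ C ∧ ∀ (N : ℕ), 0 < N → ∀ (x : ℝ) (P : Finset (ZMod N)) (K : ℝ),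
      P.Nonempty → (P.card : ℝ) / (N : ℝ) ≤ 1 / 2 → logDens P ≤ D * x →
      1 ≤ K → (P.card : ℝ) ^ 3 ≤ K ^ 2 * (P.addEnergy P : ℝ) →
      Real.log (2 * K) ^ 5 ≤ D * (logDens P * Real.log (2 + logDens P)) →
      ∃ (Γ : Finset (ZMod N)) (ε : ℝ), 0 < ε ∧ (Γ.card : ℝ) ≤ C * x ∧
        1 / C / x ≤ ε ∧ ∀ y ∈ bohr Γ ε, (P.card : ℝ) ^ 3 ≤ 2 ^ 56 * K ^ 46 * (RR P y : ℝ) := by
  obtain ⟨C₀, hC₀, h0⟩ := main1
  have hDD : 1 ≤ D * D := by nlinarith
  refine ⟨3 * (D * D) * C₀, by nlinarith, fun N hN x P K hP hα hd hK hE hL => ?_⟩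
  obtain ⟨Γ, ε, h1, h2, h3, h4⟩ := h0 N hN P K hP hα hK hE
  have hx2 : Real.log 2 ≤ logDens P := log_two_le hN hP hα
  have hlog2 : 0.69 < Real.log 2 := by have := Real.log_two_gt_d9; linarith
  have hx0 : 0 < x := by
    by_contra hx
    have : D * x ≤ 0 := mul_nonpos_of_nonneg_of_nonpos (by linarith) (not_lt.1 hx)
    linarith
  refine ⟨Γ, ε, h1, ?_, ?_, h4⟩
  · have hl0 : Real.log 2 ≤ Real.log (2 + logDens P) := Real.log_le_log (by norm_num) (by linarith)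
    have hl1 : 0 < Real.log (2 + logDens P) := by linarith
    have hnum : logDens P + Real.log (2 * K) ^ 5 ≤ (3 * D * logDens P) * Real.log (2 + logDens P) := by
      have h5 : 1 * logDens P * 1 ≤ D * logDens P * (2 * Real.log (2 + logDens P)) := by
        have h6 : 0 < logDens P := by linarith
        have h7 : 1 * logDens P ≤ D * logDens P := mul_le_mul_of_nonneg_right hD h6.le
        exact mul_le_mul h7 (by linarith) (by norm_num) (by positivity)
      linarith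
    calc (Γ.card : ℝ) ≤ C₀ * ((logDens P + Real.log (2 * K) ^ 5) / Real.log (2 + logDens P)) := h2
      _ ≤ C₀ * (((3 * D * logDens P) * Real.log (2 + logDens P)) / Real.log (2 + logDens P)) :=
          mul_le_mul_of_nonneg_left (div_le_div_of_nonneg_right hnum hl1.le) (by linarith)
      _ = C₀ * (3 * D * logDens P) := by rw [mul_div_assoc, div_self hl1.ne', mul_one]
      _ ≤ C₀ * (3 * D * (D * x)) :=
          mul_le_mul_of_nonneg_left (mul_le_mul_of_nonneg_left hd (by linarith)) (by linarith)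
      _ = _ := by ring
  · refine le_trans ?_ h3
    have hxB0 : 0 < logDens P := by linarith
    rw [div_div, div_div]
    apply one_div_le_one_div_of_le (by positivity)
    have h5 : C₀ * logDens P ≤ C₀ * (D * x) := mul_le_mul_of_nonneg_left hd (by linarith)
    have h6 : C₀ * (D * x) ≤ C₀ * ((D * D) * x) := by
      have : D * x ≤ (D * D) * x := mul_le_mul_of_nonneg_right (by nlinarith) hx0.le
      exact mul_le_mul_of_nonneg_left this (by linarith)
    have h11 : 0 < C₀ * ((D * D) * x) := by positivity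
    nlinarith

end Run7.h322.LE
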